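import Pool.Agent.H82.SC.Reg

/-!
# Sign coherence, and mutation invariance of the maximal number of red vertices (matrix form)
-/

set_option autoImplicit false
set_option linter.unusedSectionVars false

namespace Pool.Agent.H82.SC

open Finset

variable {V : Type*} [Fintype V] [DecidableEq V]

/-- a state: a matrix `ω` together with the matrix `C`; `C j i` is the entry for frozen `j` and
mutable `i` -/
abbrev St (V : Type*) := (V → V → ℤ) × (V → V → ℤ)

/-- one mutation -/
def stp (k : V) (s : St V) : St V := (mu k s.1, fun j => tm s.1 k (s.2 j))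

/-- positive combinations of the rows -/
def lin (C : V → V → ℤ) (r : V → ℤ) : V → ℤ := fun i => ∑ j, r j * C j i

/-- the invariant -/
def Good (s : St V) : Prop :=
  Skew s.1 ∧ ∀ r : V → ℤ, (∀ j, 0 < r j) → Reg s.1 (lin s.2 r)

theorem Good.lin_ne {s : St V} (h : Good s) {r : V → ℤ} (hr : ∀ j, 0 < r j) (i : V) :
    lin s.2 r i ≠ 0 := (h.2 r hr).ne h.1 i

/-- sign coherence -/
theorem Good.coh {s : St V} (h : Good s) (i : V) :
    (∀ j, 0 ≤ s.2 j i) ∨ (∀ j, s.2 j i ≤ 0) := by
  by_contra hcon
  push Not at hcon
  obtain ⟨⟨a, ha⟩, ⟨b, hb⟩⟩ := hcon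
  set P : ℤ := ∑ j, max (s.2 j i) 0 with hP
  set N : ℤ := ∑ j, max (- s.2 j i) 0 with hN
  have hPpos : 0 < P := Finset.sum_pos' (fun j _ => le_max_right _ _)
    ⟨b, Finset.mem_univ b, lt_max_of_lt_left hb⟩
  have hNpos : 0 < N := Finset.sum_pos' (fun j _ => le_max_right _ _)
    ⟨a, Finset.mem_univ a, lt_max_of_lt_left (by omega)⟩
  let r : V → ℤ := fun j => if 0 < s.2 j i then N else if s.2 j i < 0 then P else 1
  have hr : ∀ j, 0 < r j := by
    intro j
    simp only [r]
    split_ifs <;> first | assumption | norm_num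
  apply h.lin_ne hr i
  have h1 : ∀ j, r j * s.2 j i = N * max (s.2 j i) 0 - P * max (- s.2 j i) 0 := by
    intro j
    simp only [r]
    rcases lt_trichotomy (s.2 j i) 0 with hj | hj | hj
    · rw [if_neg (by omega), if_pos hj, max_eq_right hj.le, max_eq_left (by omega)]
      ring
    · rw [if_neg (by omega), if_neg (by omega), hj]
      simp
    · rw [if_pos hj, max_eq_left hj.le, max_eq_right (by omega)]
      ring
  rw [lin, Finset.sum_congr rfl fun j _ => h1 j, Finset.sum_sub_distrib, ← Finset.mul_sum,
    ← Finset.mul_sum, ← hP, ← hN]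
  ring

theorem Good.col_ne {s : St V} (h : Good s) (i : V) : ∃ j, s.2 j i ≠ 0 := by
  by_contra hcon
  push Not at hcon
  apply h.lin_ne (r := fun _ => 1) (fun _ => one_pos) i
  rw [lin]
  exact Finset.sum_eq_zero fun j _ => by rw [hcon j, mul_zero]

/-- mutation is a column operation -/
theorem Good.op {s : St V} (h : Good s) (k : V) : ∃ m : V → ℤ, (∀ i, 0 ≤ m i) ∧
    (∀ j i, (stp k s).2 j i = if i = k then - s.2 j k else s.2 j i + m i * s.2 j k) ∧
    ∀ r : V → ℤ, (∀ j, 0 < r j) → ∀ i, tm s.1 k (lin s.2 r) i =
      if i = k then - lin s.2 r k else lin s.2 r i + m i * lin s.2 r k := by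
  rcases h.coh k with hk | hk
  · refine ⟨fun i => max (s.1 k i) 0, fun i => le_max_right _ _, fun j i => ?_,
      fun r hr i => ?_⟩
    · change tm s.1 k (s.2 j) i = _
      rw [tm]
      by_cases hi : i = k
      · rw [if_pos hi, if_pos hi]
      · rw [if_neg hi, if_neg hi, max_eq_left (hk j), max_eq_right (a := - s.2 j k) (by
          have := hk j; omega)]
        ring
    · have h0 : 0 ≤ lin s.2 r k := Finset.sum_nonneg fun j _ => mul_nonneg (hr j).le (hk j)
      rw [tm]
      by_cases hi : i = k
      · rw [if_pos hi, if_pos hi]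
      · rw [if_neg hi, if_neg hi, max_eq_left h0, max_eq_right (a := - lin s.2 r k) (by omega)]
        ring
  · refine ⟨fun i => max (- s.1 k i) 0, fun i => le_max_right _ _, fun j i => ?_,
      fun r hr i => ?_⟩
    · change tm s.1 k (s.2 j) i = _
      rw [tm]
      by_cases hi : i = k
      · rw [if_pos hi, if_pos hi]
      · rw [if_neg hi, if_neg hi, max_eq_right (hk j), max_eq_left (a := - s.2 j k) (by
          have := hk j; omega)]
        ring
    · have h0 : lin s.2 r k ≤ 0 := Finset.sum_nonpos fun j _ =>
        mul_nonpos_of_nonneg_of_nonpos (hr j).le (hk j)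
      rw [tm]
      by_cases hi : i = k
      · rw [if_pos hi, if_pos hi]
      · rw [if_neg hi, if_neg hi, max_eq_right h0, max_eq_left (a := - lin s.2 r k) (by omega)]
        ring

theorem Good.stp {s : St V} (h : Good s) (k : V) : Good (SC.stp k s) := by
  refine ⟨h.1.mu k, fun r hr => ?_⟩
  obtain ⟨m, -, h1, h2⟩ := h.op k
  have : lin (SC.stp k s).2 r = tm s.1 k (lin s.2 r) := by
    funext i
    rw [h2 r hr i]
    unfold lin
    by_cases hi : i = k
    · rw [if_pos hi, ← Finset.sum_neg_distrib]
      refine Finset.sum_congr rfl fun j _ => ?_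
      rw [h1 j i, if_pos hi]; ring
    · rw [if_neg hi, Finset.mul_sum, ← Finset.sum_add_distrib]
      refine Finset.sum_congr rfl fun j _ => ?_
      rw [h1 j i, if_neg hi]; ring
  rw [this]
  exact (h.2 r hr).mu h.1 k

/-- linear independence of the columns -/
def Ind (C : V → V → ℤ) : Prop := ∀ u : V → ℤ, (∀ j, ∑ i, u i * C j i = 0) → u = 0

theorem Ind.stp {s : St V} (h : Good s) (hI : Ind s.2) (k : V) : Ind (SC.stp k s).2 := by
  obtain ⟨m, -, h1, -⟩ := h.op k
  intro u hu
  let v : V → ℤ := fun i => if i = k then - u k + ∑ l ∈ Finset.univ.erase k, u l * m l else u i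
  have hv : ∀ j, ∑ i, v i * s.2 j i = 0 := by
    intro j
    rw [← hu j, ← Finset.add_sum_erase _ _ (Finset.mem_univ k),
      ← Finset.add_sum_erase Finset.univ (fun i => u i * (SC.stp k s).2 j i) (Finset.mem_univ k)]
    have e1 : ∑ i ∈ Finset.univ.erase k, v i * s.2 j i =
        ∑ i ∈ Finset.univ.erase k, u i * s.2 j i := by
      refine Finset.sum_congr rfl fun i hi => ?_
      simp only [v, if_neg (Finset.ne_of_mem_erase hi)]
    have e2 : ∑ i ∈ Finset.univ.erase k, u i * (SC.stp k s).2 j i =
        ∑ i ∈ Finset.univ.erase k, u i * s.2 j i +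
          (∑ i ∈ Finset.univ.erase k, u i * m i) * s.2 j k := by
      rw [Finset.sum_mul, ← Finset.sum_add_distrib]
      refine Finset.sum_congr rfl fun i hi => ?_
      rw [h1 j i, if_neg (Finset.ne_of_mem_erase hi)]
      ring
    rw [e1, e2, h1 j k, if_pos rfl]
    simp only [v, if_true]
    ring
  have hv0 := hI v hv
  have h2 : ∀ i, i ≠ k → u i = 0 := by
    intro i hi
    have := congrFun hv0 i
    simpa [v, hi] using this
  have h3 : u k = 0 := by
    have := congrFun hv0 k
    simp only [v, if_true, Pi.zero_apply] at this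
    rw [Finset.sum_eq_zero (fun l hl => by rw [h2 l (Finset.ne_of_mem_erase hl), zero_mul])] at this
    omega
  funext i
  by_cases hi : i = k
  · rw [hi, h3]; rfl
  · rw [h2 i hi]; rfl

/-- the state after a sequence of mutations -/
def rn (s : St V) (p : List V) : St V := p.foldl (fun s k => stp k s) s

theorem rn_nil (s : St V) : rn s [] = s := rfl
theorem rn_cons (s : St V) (k : V) (p : List V) : rn s (k :: p) = rn (stp k s) p := rfl
theorem rn_append (s : St V) (p q : List V) : rn s (p ++ q) = rn (rn s p) q := by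
  simp [rn, List.foldl_append]

theorem Good.rn {s : St V} (h : Good s) (p : List V) : Good (SC.rn s p) := by
  induction p generalizing s with
  | nil => exact h
  | cons k p ih => exact ih (h.stp k)

theorem Ind.rn {s : St V} (h : Good s) (hI : Ind s.2) (p : List V) : Ind (SC.rn s p).2 := by
  induction p generalizing s with
  | nil => exact hI
  | cons k p ih => exact ih (h.stp k) (Ind.stp h hI k)

/-- the initial state -/
def ini (ω : V → V → ℤ) : St V := (ω, fun j i => if i = j then 1 else 0)

theorem good_ini {ω : V → V → ℤ} (hω : Skew ω) : Good (ini ω) := by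
  refine ⟨hω, fun r hr => ?_⟩
  have : lin (ini ω).2 r = r := by
    funext i
    simp [lin, ini]
  rw [this]
  exact Reg_of_pos hω hr

theorem ind_ini (ω : V → V → ℤ) : Ind (ini ω).2 := by
  intro u hu
  funext i
  have := hu i
  simpa [ini] using this

/-- red vertices -/
def Red (s : St V) (i : V) : Prop := ∃ j, s.2 j i < 0

theorem Good.red_iff {s : St V} (h : Good s) {i j : V} (hj : s.2 j i ≠ 0) :
    Red s i ↔ s.2 j i < 0 := by
  constructor
  · rintro ⟨l, hl⟩
    rcases h.coh i with h' | h'
    · exact absurd (h' l) (by omega)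
    · exact lt_of_le_of_ne (h' j) hj
  · intro h'
    exact ⟨j, h'⟩

/-- two states that agree outside the frozen vertex `k` -/
def Agree (k : V) (s s' : St V) : Prop := s.1 = s'.1 ∧ ∀ j, j ≠ k → s.2 j = s'.2 j

theorem Agree.stp {k : V} {s s' : St V} (h : Agree k s s') (l : V) :
    Agree k (SC.stp l s) (SC.stp l s') := by
  refine ⟨by rw [SC.stp, SC.stp, h.1], fun j hj => ?_⟩
  rw [SC.stp, SC.stp]
  simp only
  rw [h.1, h.2 j hj]

theorem Agree.rn {k : V} {s s' : St V} (h : Agree k s s') (p : List V) :
    Agree k (SC.rn s p) (SC.rn s' p) := by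
  induction p generalizing s s' with
  | nil => exact h
  | cons l p ih => exact ih (h.stp l)

/-- the comparison of red vertices -/
theorem compare {k : V} {s s' : St V} (h : Agree k s s') (hg : Good s) (hg' : Good s')
    (hI : Ind s'.2) : ∃ q : List V, ∀ i, Red s i → Red (rn s' q) i := by
  by_cases hcase : ∃ z, Red s z ∧ ¬ Red s' z
  · obtain ⟨z, hz, hz'⟩ := hcase
    refine ⟨[z], fun i hi => ?_⟩
    rw [rn_cons, rn_nil]
    -- column `z` is supported at `k`
    have hzk : ∀ j, j ≠ k → s'.2 j z = 0 := by
      intro j hj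
      by_contra hne
      have e : s.2 j z = s'.2 j z := by rw [h.2 j hj]
      have hne' : s.2 j z ≠ 0 := by rwa [e]
      apply hz'
      rw [hg'.red_iff hne, ← e]
      exact (hg.red_iff hne').1 hz
    have hkz : s'.2 k z ≠ 0 := by
      intro h0
      obtain ⟨j, hj⟩ := hg'.col_ne z
      by_cases hjk : j = k
      · exact hj (by rw [hjk]; exact h0)
      · exact hj (hzk j hjk)
    have hkz' : 0 < s'.2 k z := by
      rcases lt_or_gt_of_ne hkz with h' | h'
      · exact absurd ⟨k, h'⟩ hz'
      · exact h'
    obtain ⟨m, -, h1, -⟩ := hg'.op z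
    by_cases hiz : i = z
    · subst hiz
      refine ⟨k, ?_⟩
      rw [h1 k i, if_pos rfl]
      omega
    · -- some entry of column `i` outside `k` is nonzero
      have hex : ∃ j, j ≠ k ∧ s'.2 j i ≠ 0 := by
        by_contra hcon
        push Not at hcon
        have hu := hI (fun l => if l = i then s'.2 k z else if l = z then - s'.2 k i else 0) (by
          intro j
          have hsum : ∀ l, (if l = i then s'.2 k z else if l = z then - s'.2 k i else 0) *
              s'.2 j l = (if l = i then s'.2 k z * s'.2 j i else 0) +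
                (if l = z then - s'.2 k i * s'.2 j z else 0) := by
            intro l
            by_cases hl : l = i
            · have : ¬ (i = z) := hiz
              simp [hl, this]
            · by_cases hl2 : l = z
              · subst hl2; simp [hl]
              · simp [hl, hl2]
          rw [Finset.sum_congr rfl fun l _ => hsum l, Finset.sum_add_distrib,
            Finset.sum_ite_eq' Finset.univ i, Finset.sum_ite_eq' Finset.univ z,
            if_pos (Finset.mem_univ i), if_pos (Finset.mem_univ z)]
          by_cases hj : j = k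
          · subst hj; ring
          · rw [hcon j hj, hzk j hj]; ring)
        have := congrFun hu i
        simp at this
        exact hkz this
      obtain ⟨j, hjk, hji⟩ := hex
      have e : s.2 j i = s'.2 j i := by rw [h.2 j hjk]
      have e2 : (stp z s').2 j i = s'.2 j i := by
        rw [h1 j i, if_neg hiz, hzk j hjk]; ring
      have hji2 : s.2 j i ≠ 0 := by rwa [e]
      refine ⟨j, ?_⟩
      rw [e2, ← e]
      exact (hg.red_iff hji2).1 hi
  · refine ⟨[], fun i hi => ?_⟩
    rw [rn_nil]
    by_contra hcon
    exact hcase ⟨i, hi, hcon⟩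

theorem mu_mu (k : V) (ω : V → V → ℤ) : mu k (mu k ω) = ω := by
  funext i j
  simp only [mu]
  by_cases hi : i = k
  · simp [hi]
  · by_cases hj : j = k
    · simp [hj]
    · simp only [hi, hj, or_self, if_false, or_true, true_or, if_true]
      ring_nf

/-- every set of red vertices that occurs for `ω` is contained in one that occurs for `mu k ω` -/
theorem red_mu {ω : V → V → ℤ} (hω : Skew ω) (k : V) (p : List V) :
    ∃ q : List V, ∀ i, Red (rn (ini ω) p) i → Red (rn (ini (mu k ω)) q) i := by
  have hA : Agree k (ini ω) (stp k (ini (mu k ω))) := by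
    refine ⟨(mu_mu k ω).symm, fun j hj => ?_⟩
    funext i
    change (if i = j then (1 : ℤ) else 0) = tm (mu k ω) k (fun i => if i = j then 1 else 0) i
    simp only [tm]
    have hkj : ¬ (k = j) := fun h => hj h.symm
    by_cases hi : i = k
    · subst hi; simp [hkj]
    · simp [hi, hkj]
  have hg' : Good (ini (mu k ω)) := good_ini (hω.mu k)
  obtain ⟨q, hq⟩ := compare (hA.rn p) ((good_ini hω).rn p) ((hg'.stp k).rn p)
    (Ind.rn (hg'.stp k) (Ind.stp hg' (ind_ini _) k) p)
  refine ⟨k :: p ++ q, fun i hi => ?_⟩
  rw [rn_append, rn_cons]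
  exact hq i hi

end Pool.Agent.H82.SC
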