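import Pool.Agent.H82.SC.Tw

/-!
# The quantum dilogarithm like series and slices
-/

set_option autoImplicit false
set_option linter.unusedSectionVars false

namespace Pool.Agent.H82.SC

open Finset

/-- coefficients of the solution of `E (4 x) (1 + 2 x) = E x` -/
def al : ℕ → ℚ
  | 0 => 1
  | (j + 1) => -(2 * 4 ^ j * al j) / (4 ^ (j + 1) - 1)

theorem al_zero : al 0 = 1 := rfl
theorem al_one : al 1 = -2 / 3 := by
  rw [al, al]; norm_num
theorem al_succ (j : ℕ) : al (j + 1) = 4 ^ (j + 1) * al (j + 1) + 2 * 4 ^ j * al j := by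
  have h : (4 : ℚ) ^ (j + 1) - 1 ≠ 0 := by
    have : (1 : ℚ) < 4 ^ (j + 1) := one_lt_pow₀ (by norm_num) (Nat.succ_ne_zero j)
    linarith
  have e : al (j + 1) = -(2 * 4 ^ j * al j) / (4 ^ (j + 1) - 1) := rfl
  rw [e]
  field_simp
  ring

/-- the power series -/
noncomputable def Eps : PowerSeries ℚ := PowerSeries.mk al

open PowerSeries in
theorem Eps_fe (y : ℚ) : rescale y Eps = rescale (4 * y) Eps *
    ((1 + Polynomial.C (2 * y) * Polynomial.X : Polynomial ℚ) : PowerSeries ℚ) := by
  have e : ((1 + Polynomial.C (2 * y) * Polynomial.X : Polynomial ℚ) : PowerSeries ℚ) =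
      1 + C (2 * y) * X := by
    simp
  rw [e, mul_add, mul_one]
  ext j
  rw [map_add, coeff_rescale, coeff_rescale, ← mul_assoc]
  cases j with
  | zero =>
    simp [Eps]
  | succ j =>
    rw [coeff_succ_mul_X, coeff_mul_C, coeff_rescale]
    simp only [Eps, coeff_mk]
    nth_rewrite 1 [al_succ j]
    ring

/-- the transfer polynomial -/
noncomputable def Qp (c : ℕ) : Polynomial ℚ :=
  ∏ l ∈ range c, (1 + Polynomial.C ((2 : ℚ) ^ (2 * (l : ℤ) + 1 - c)) * Polynomial.X)

open PowerSeries in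
theorem Eps_iter (y : ℚ) (c : ℕ) : rescale y Eps = rescale (4 ^ c * y) Eps *
    ((∏ l ∈ range c, (1 + Polynomial.C (2 * 4 ^ l * y) * Polynomial.X) : Polynomial ℚ) :
      PowerSeries ℚ) := by
  induction c with
  | zero => simp
  | succ c ih =>
    rw [ih, Eps_fe (4 ^ c * y), Finset.prod_range_succ]
    rw [Polynomial.coe_mul]
    have e1 : 4 * (4 ^ c * y) = 4 ^ (c + 1) * y := by ring
    have e2 : 2 * (4 ^ c * y) = 2 * 4 ^ c * y := by ring
    rw [e1, e2]
    ring

open PowerSeries in
theorem Eps_Qp (c : ℕ) : rescale ((2 : ℚ) ^ (-(c : ℤ))) Eps =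
    rescale ((2 : ℚ) ^ (c : ℤ)) Eps * (Qp c : PowerSeries ℚ) := by
  rw [Eps_iter _ c, Qp]
  have h2 : (2 : ℚ) ≠ 0 := by norm_num
  have e1 : (4 : ℚ) ^ c * (2 : ℚ) ^ (-(c : ℤ)) = (2 : ℚ) ^ (c : ℤ) := by
    have : (4 : ℚ) ^ c = (2 : ℚ) ^ (2 * (c : ℤ)) := by
      rw [zpow_mul]
      norm_num
    rw [this, ← zpow_add₀ h2]
    congr 1; ring
  rw [e1]
  congr 2
  refine Finset.prod_congr rfl fun l _ => ?_
  congr 3
  have : (4 : ℚ) ^ l = (2 : ℚ) ^ (2 * (l : ℤ)) := by
    rw [zpow_mul]
    norm_num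
  rw [this]
  rw [show (2 : ℚ) * (2 : ℚ) ^ (2 * (l : ℤ)) = (2 : ℚ) ^ (2 * (l : ℤ) + 1) by
    rw [zpow_add₀ h2]; ring, ← zpow_add₀ h2]
  congr 1

open Polynomial in
theorem Qp_natDegree (c : ℕ) : (Qp c).natDegree ≤ c := by
  unfold Qp
  refine (natDegree_prod_le _ _).trans ?_
  calc ∑ l ∈ range c, (1 + C ((2 : ℚ) ^ (2 * (l : ℤ) + 1 - c)) * X).natDegree
      ≤ ∑ _l ∈ range c, 1 := by
        refine Finset.sum_le_sum fun l _ => ?_
        compute_degree
    _ = c := by simp

open Polynomial in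
theorem reflect_prod_lin (s : Finset ℕ) (a : ℕ → ℚ) :
    (∏ l ∈ s, (1 + C (a l) * X)).reflect s.card = ∏ l ∈ s, (C (a l) + X) := by
  classical
  induction s using Finset.induction_on with
  | empty => simp
  | insert x s hx ih =>
    rw [Finset.prod_insert hx, Finset.prod_insert hx, Finset.card_insert_of_notMem hx, ← ih,
      add_comm s.card 1, reflect_mul]
    · congr 1
      ext n
      rw [coeff_reflect]
      rcases n with _ | _ | n
      · rw [revAt_le (by omega)]
        simp [coeff_X, coeff_one]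
      · rw [revAt_le (by omega)]
        simp [coeff_X, coeff_C]
      · rw [revAt_eq_self_of_lt (by omega)]
        simp [coeff_X, coeff_one]
    · compute_degree
    · refine (natDegree_prod_le _ _).trans ?_
      calc ∑ l ∈ s, (1 + C (a l) * X).natDegree ≤ ∑ _l ∈ s, 1 := by
            refine Finset.sum_le_sum fun l _ => ?_
            compute_degree
        _ = s.card := by simp

open Polynomial in
theorem Qp_reflect (c : ℕ) : (Qp c).reflect c = Qp c := by
  have h2 : (2 : ℚ) ≠ 0 := by norm_num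
  have h := reflect_prod_lin (range c) (fun l => (2 : ℚ) ^ (2 * (l : ℤ) + 1 - c))
  rw [Finset.card_range] at h
  rw [Qp, h]
  have e : ∀ l ∈ range c, (C ((2 : ℚ) ^ (2 * (l : ℤ) + 1 - c)) + X : ℚ[X]) =
      C ((2 : ℚ) ^ (2 * (l : ℤ) + 1 - c)) *
        (1 + C ((2 : ℚ) ^ (2 * ((c - 1 - l : ℕ) : ℤ) + 1 - c)) * X) := by
    intro l hl
    have hl' : l < c := Finset.mem_range.1 hl
    have hcast : ((c - 1 - l : ℕ) : ℤ) = (c : ℤ) - 1 - l := by omega
    rw [mul_add, mul_one, ← mul_assoc, ← C_mul, ← zpow_add₀ h2, hcast]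
    have : 2 * (l : ℤ) + 1 - c + (2 * ((c : ℤ) - 1 - l) + 1 - c) = 0 := by ring
    rw [this]
    simp
  rw [Finset.prod_congr rfl e, Finset.prod_mul_distrib,
    Finset.prod_range_reflect
      (fun l => (1 + C ((2 : ℚ) ^ (2 * (l : ℤ) + 1 - c)) * X : ℚ[X])) c]
  have : ∏ l ∈ range c, (C ((2 : ℚ) ^ (2 * (l : ℤ) + 1 - c)) : ℚ[X]) = 1 := by
    rw [← map_prod]
    have : ∏ l ∈ range c, (2 : ℚ) ^ (2 * (l : ℤ) + 1 - c) =
        (2 : ℚ) ^ (∑ l ∈ range c, (2 * (l : ℤ) + 1 - c)) := by
      induction range c using Finset.induction_on with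
      | empty => simp
      | insert x s hx ih => rw [Finset.prod_insert hx, Finset.sum_insert hx, zpow_add₀ h2, ih]
    rw [this]
    have hs : ∑ l ∈ range c, (2 * (l : ℤ) + 1 - c) = 0 := by
      have : ∀ c : ℕ, ∑ l ∈ range c, (2 * (l : ℤ) + 1) = (c : ℤ) * c := by
        intro c
        induction c with
        | zero => simp
        | succ c ih => rw [Finset.sum_range_succ, ih]; push_cast; ring
      rw [Finset.sum_sub_distrib, this]
      simp
    rw [hs]
    simp
  rw [this, one_mul]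


/-! ### the elements `E k` and slices -/

variable {V : Type*} [Fintype V] [DecidableEq V]

/-- the coefficient function `∑_l d l * ω k l` -/
def cf (ω : V → V → ℤ) (k : V) (d : V → ℕ) : ℤ := ∑ l, (d l : ℤ) * ω k l

theorem form_single_left (ω : V → V → ℤ) (k : V) (j : ℕ) (d : V → ℕ) :
    form ω (Pi.single k j) d = j * cf ω k d := by
  unfold form cf
  rw [Finset.sum_eq_single k]
  · rw [Finset.mul_sum]
    refine Finset.sum_congr rfl fun l _ => ?_
    rw [Pi.single_eq_same]; ring
  · intro i _ hi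
    simp [Pi.single_eq_of_ne hi]
  · intro h; exact absurd (Finset.mem_univ k) h

theorem cf_update (ω : V → V → ℤ) {k : V} (hk : ω k k = 0) (d : V → ℕ) (a : ℕ) :
    cf ω k (Function.update d k a) = cf ω k d := by
  unfold cf
  refine Finset.sum_congr rfl fun l _ => ?_
  by_cases h : l = k
  · subst h; simp [hk]
  · rw [Function.update_of_ne h]

/-- the positive part of `cf` -/
def be (ω : V → V → ℤ) (k : V) : (V → ℕ) →+ ℕ where
  toFun d := ∑ l, d l * (ω k l).toNat
  map_zero' := by simp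
  map_add' a b := by simp [add_mul, Finset.sum_add_distrib]

theorem be_apply (ω : V → V → ℤ) (k : V) (d : V → ℕ) : be ω k d = ∑ l, d l * (ω k l).toNat := rfl

theorem be_update (ω : V → V → ℤ) {k : V} (hk : ω k k = 0) (d : V → ℕ) (a : ℕ) :
    be ω k (Function.update d k a) = be ω k d := by
  rw [be_apply, be_apply]
  refine Finset.sum_congr rfl fun l _ => ?_
  by_cases h : l = k
  · subst h; simp [hk]
  · rw [Function.update_of_ne h]

theorem be_single (ω : V → V → ℤ) {k : V} (i : V) (j : ℕ) :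
    be ω k (Pi.single i j) = j * (ω k i).toNat := by
  rw [be_apply, Finset.sum_eq_single i]
  · rw [Pi.single_eq_same]
  · intro l _ hl
    simp [Pi.single_eq_of_ne hl]
  · intro h; exact absurd (Finset.mem_univ i) h

theorem cf_eq {ω : V → V → ℤ} (hω : Skew ω) (k : V) (d : V → ℕ) :
    cf ω k d = (be ω k d : ℤ) - (be (tp ω) k d : ℤ) := by
  rw [be_apply, be_apply, cf]
  push_cast
  rw [← Finset.sum_sub_distrib]
  refine Finset.sum_congr rfl fun l _ => ?_
  rw [← mul_sub]
  congr 1
  have : tp ω k l = - ω k l := hω l k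
  rw [this]
  omega

theorem cf_tp {ω : V → V → ℤ} (hω : Skew ω) (k : V) (d : V → ℕ) : cf (tp ω) k d = - cf ω k d := by
  rw [cf, cf, ← Finset.sum_neg_distrib]
  refine Finset.sum_congr rfl fun l _ => ?_
  have : tp ω k l = - ω k l := hω l k
  rw [this]; ring

theorem Skew.diag {ω : V → V → ℤ} (hω : Skew ω) (k : V) : ω k k = 0 := by
  have := hω k k
  omega

namespace A

variable {ω : V → V → ℤ}

/-- the element attached to the simple direction `k` -/
def E (k : V) : A ω := ⟨fun m => if m = Pi.single k (m k) then al (m k) else 0⟩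

theorem E_single (k : V) (j : ℕ) : (E k : A ω) (Pi.single k j) = al j := by
  simp [E]
theorem E_ne {k : V} {m : V → ℕ} (h : m ≠ Pi.single k (m k)) : (E k : A ω) m = 0 := by
  simp [E, h]
theorem E_zero (k : V) : (E k : A ω) 0 = 1 := by
  have := E_single (ω := ω) k 0
  rwa [Pi.single_zero, al_zero] at this
theorem E_Sp (k : V) : Sp (fun m => m = Pi.single k (m k)) (E k : A ω) := fun _ h => E_ne h
theorem op_E (k : V) : op (E k : A ω) = E k := rfl

/-- slices -/
noncomputable def sl (k : V) (f : A ω) (d : V → ℕ) : PowerSeries ℚ :=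
  PowerSeries.mk fun a => f (Function.update d k a)

theorem coeff_sl (k : V) (f : A ω) (d : V → ℕ) (a : ℕ) :
    PowerSeries.coeff a (sl k f d) = f (Function.update d k a) := by
  rw [sl, PowerSeries.coeff_mk]

theorem sl_op (k : V) (f : A ω) (d : V → ℕ) : sl k (op f) d = sl k f d := rfl

theorem sl_E_mul {k : V} (hk : ω k k = 0) (f : A ω) (d : V → ℕ) :
    sl k (E k * f) d = PowerSeries.rescale ((2 : ℚ) ^ (cf ω k d)) Eps * sl k f d := by
  ext a
  rw [coeff_sl, PowerSeries.coeff_mul, Finset.Nat.sum_antidiagonal_eq_sum_range_succ_mk, mul_co]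
  have hinj : ∀ x ∈ range (a + 1), ∀ y ∈ range (a + 1),
      (Pi.single k x : V → ℕ) = Pi.single k y → x = y := by
    intro x _ y _ h
    exact Pi.single_injective k h
  have hsub : (range (a + 1)).image (fun j => (Pi.single k j : V → ℕ)) ⊆
      Finset.Iic (Function.update d k a) := by
    intro m hm
    rw [Finset.mem_image] at hm
    obtain ⟨j, hj, rfl⟩ := hm
    rw [Finset.mem_Iic]
    intro i
    by_cases hi : i = k
    · subst hi
      simp only [Pi.single_eq_same, Function.update_self]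
      have := Finset.mem_range.1 hj
      omega
    · rw [Pi.single_eq_of_ne hi]; exact Nat.zero_le _
  rw [← Finset.sum_subset hsub, Finset.sum_image hinj]
  · refine Finset.sum_congr rfl fun j hj => ?_
    have hj' : j ≤ a := by
      have := Finset.mem_range.1 hj
      omega
    have e1 : Function.update d k a - Pi.single k j = Function.update d k (a - j) := by
      ext i
      by_cases hi : i = k
      · subst hi; simp
      · simp [Pi.single_eq_of_ne hi, Function.update_of_ne hi]
    rw [e1, form_single_left, cf_update ω hk, E_single, PowerSeries.coeff_rescale, coeff_sl, Eps,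
      PowerSeries.coeff_mk, mul_comm (j : ℤ), zpow_mul, zpow_natCast]
    ring
  · intro m hm hm2
    rw [E_ne]
    · simp
    · intro h
      apply hm2
      rw [Finset.mem_image]
      refine ⟨m k, ?_, h.symm⟩
      have hle : m k ≤ a := by simpa using (Finset.mem_Iic.1 hm) k
      exact Finset.mem_range.2 (Nat.lt_succ_of_le hle)

theorem sl_mul_E (hω : Skew ω) (k : V) (f : A ω) (d : V → ℕ) :
    sl k (f * E k) d = PowerSeries.rescale ((2 : ℚ) ^ (-cf ω k d)) Eps * sl k f d := by
  have h := sl_E_mul (ω := tp ω) (k := k) (hω.tp.diag k) (op f) d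
  rw [← op_E (ω := ω), ← op_mul, sl_op, sl_op, cf_tp hω] at h
  exact h

theorem eq_of_sl {k : V} {f g : A ω} (h : ∀ d, sl k f d = sl k g d) : f = g := by
  ext m
  have := congrArg (PowerSeries.coeff (m k)) (h m)
  rwa [coeff_sl, coeff_sl, Function.update_eq_self] at this

theorem rescale_Eps_ne (y : ℚ) : PowerSeries.rescale y Eps ≠ 0 := by
  intro h
  have := congrArg (PowerSeries.coeff 0) h
  rw [PowerSeries.coeff_rescale, Eps, PowerSeries.coeff_mk, al_zero] at this
  simp at this

/-- comparison of the slices of `h` and `h'` if `E k * h = h' * E k` -/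
theorem sl_compare (hω : Skew ω) {k : V} {h hs : A ω} (e : E k * h = hs * E k) (d : V → ℕ)
    (c : ℕ) (hc : cf ω k d = c) : sl k h d = sl k hs d * (Qp c : PowerSeries ℚ) := by
  have e1 := sl_E_mul (hω.diag k) h d
  have e2 := sl_mul_E hω k hs d
  rw [e, e2, hc, Eps_Qp, mul_assoc] at e1
  have := mul_left_cancel₀ (rescale_Eps_ne _) e1
  rw [← this]
  ring

theorem of_sl_compare (hω : Skew ω) {k : V} {h hs : A ω}
    (e1 : ∀ d (c : ℕ), cf ω k d = c → sl k h d = sl k hs d * (Qp c : PowerSeries ℚ))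
    (e2 : ∀ d (c : ℕ), cf ω k d = -c → sl k hs d = sl k h d * (Qp c : PowerSeries ℚ)) :
    E k * h = hs * E k := by
  refine eq_of_sl (k := k) fun d => ?_
  rw [sl_E_mul (hω.diag k), sl_mul_E hω]
  rcases le_total 0 (cf ω k d) with h0 | h0
  · obtain ⟨c, hc⟩ := Int.eq_ofNat_of_zero_le h0
    rw [e1 d c hc, hc, Eps_Qp]
    ring
  · obtain ⟨c, hc⟩ := Int.eq_ofNat_of_zero_le (neg_nonneg.2 h0)
    have hc' : cf ω k d = -c := by omega
    rw [e2 d c hc', hc', neg_neg, Eps_Qp]
    ring

end A

end Pool.Agent.H82.SC
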