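import Pool.Agent.H82.SC.Filt

/-!
# The factorisation `g = g₊ g₀ g₋` with respect to a weight
-/

set_option autoImplicit false
set_option linter.unusedSectionVars false

namespace Pool.Agent.H82.SC

open Finset

variable {V : Type*} [Fintype V] [DecidableEq V]

namespace A

variable {ω : V → V → ℤ}

open Classical in
/-- restriction of the support -/
noncomputable def res (P : (V → ℕ) → Prop) (f : A ω) : A ω := ⟨fun m => if P m then f m else 0⟩

theorem res_co_pos {P : (V → ℕ) → Prop} {f : A ω} {m : V → ℕ} (h : P m) : res P f m = f m := by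
  simp [res, h]
theorem res_co_neg {P : (V → ℕ) → Prop} {f : A ω} {m : V → ℕ} (h : ¬ P m) : res P f m = 0 := by
  simp [res, h]
theorem res_sub (P : (V → ℕ) → Prop) (f g : A ω) : res P (f - g) = res P f - res P g := by
  ext m
  by_cases h : P m
  · simp [res_co_pos h]
  · simp [res_co_neg h]
theorem Sp.res (P : (V → ℕ) → Prop) (f : A ω) : Sp P (res P f) := fun _ h => res_co_neg h
theorem Sp.res' {P : (V → ℕ) → Prop} (Q : (V → ℕ) → Prop) {f : A ω} (hf : Sp P f) :
    Sp P (A.res Q f) := by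
  intro m hm
  by_cases h : Q m
  · rw [res_co_pos h, hf m hm]
  · exact res_co_neg h
theorem Van.res {N : ℕ} {f : A ω} (Q : (V → ℕ) → Prop) (hf : Van N f) : Van N (A.res Q f) := by
  intro m hm
  by_cases h : Q m
  · rw [res_co_pos h, hf m hm]
  · exact res_co_neg h

/-- positive part group -/
def Gp (w : (V → ℕ) →+ ℤ) (f : A ω) : Prop := f 0 = 1 ∧ Sp (fun m => m = 0 ∨ 0 < w m) f
/-- zero part group -/
def G0 (w : (V → ℕ) →+ ℤ) (f : A ω) : Prop := f 0 = 1 ∧ Sp (fun m => w m = 0) f
/-- negative part group -/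
def Gm (w : (V → ℕ) →+ ℤ) (f : A ω) : Prop := f 0 = 1 ∧ Sp (fun m => m = 0 ∨ w m < 0) f

variable {w : (V → ℕ) →+ ℤ}

theorem Gp.mul {f g : A ω} (hf : Gp w f) (hg : Gp w g) : Gp w (f * g) := by
  refine ⟨mul_co_zero_one hf.1 hg.1, hf.2.mul hg.2 ?_⟩
  rintro a b (rfl | ha) (rfl | hb)
  · left; simp
  · right; simpa using hb
  · right; simpa using ha
  · right; rw [map_add]; omega
theorem G0.mul {f g : A ω} (hf : G0 w f) (hg : G0 w g) : G0 w (f * g) := by
  refine ⟨mul_co_zero_one hf.1 hg.1, hf.2.mul hg.2 ?_⟩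
  intro a b ha hb
  rw [map_add]; omega
theorem Gm.mul {f g : A ω} (hf : Gm w f) (hg : Gm w g) : Gm w (f * g) := by
  refine ⟨mul_co_zero_one hf.1 hg.1, hf.2.mul hg.2 ?_⟩
  rintro a b (rfl | ha) (rfl | hb)
  · left; simp
  · right; simpa using hb
  · right; simpa using ha
  · right; rw [map_add]; omega
theorem Gp.inv {f : A ω} (hf : Gp w f) : Gp w (inv f) := by
  refine ⟨inv_co_zero hf.1, hf.2.inv hf.1 (Or.inl rfl) ?_⟩
  rintro a b (rfl | ha) (rfl | hb)
  · left; simp
  · right; simpa using hb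
  · right; simpa using ha
  · right; rw [map_add]; omega
theorem G0.inv {f : A ω} (hf : G0 w f) : G0 w (inv f) := by
  refine ⟨inv_co_zero hf.1, hf.2.inv hf.1 (map_zero w) ?_⟩
  intro a b ha hb
  rw [map_add]; omega
theorem Gm.inv {f : A ω} (hf : Gm w f) : Gm w (inv f) := by
  refine ⟨inv_co_zero hf.1, hf.2.inv hf.1 (Or.inl rfl) ?_⟩
  rintro a b (rfl | ha) (rfl | hb)
  · left; simp
  · right; simpa using hb
  · right; simpa using ha
  · right; rw [map_add]; omega
theorem Gp.one : Gp w (1 : A ω) := ⟨by simp, Sp.one (Or.inl rfl)⟩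
theorem G0.one : G0 w (1 : A ω) := ⟨by simp, Sp.one (map_zero w)⟩
theorem Gm.one : Gm w (1 : A ω) := ⟨by simp, Sp.one (Or.inl rfl)⟩

theorem Gp.sub_one {f : A ω} (hf : Gp w f) : Sp (fun m => 0 < w m) (f - 1) := by
  intro m hm
  rw [sub_co, one_co]
  by_cases h : m = 0
  · subst h; simp [hf.1]
  · rw [if_neg h, hf.2 m (by simp [h]; omega), sub_zero]
theorem Gm.sub_one {f : A ω} (hf : Gm w f) : Sp (fun m => w m < 0) (f - 1) := by
  intro m hm
  rw [sub_co, one_co]
  by_cases h : m = 0
  · subst h; simp [hf.1]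
  · rw [if_neg h, hf.2 m (by simp [h]; omega), sub_zero]

theorem Gp.of_sub_one {f : A ω} (hf : Sp (fun m => 0 < w m) (f - 1)) : Gp w f := by
  have h0 : (f - 1) 0 = 0 := hf 0 (by simp)
  refine ⟨by simpa [sub_eq_zero] using h0, fun m hm => ?_⟩
  have := hf m (fun h => hm (Or.inr h))
  rw [sub_co, one_co, if_neg (fun h => hm (Or.inl h)), sub_zero] at this
  exact this
theorem Gm.of_sub_one {f : A ω} (hf : Sp (fun m => w m < 0) (f - 1)) : Gm w f := by
  have h0 : (f - 1) 0 = 0 := hf 0 (by simp)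
  refine ⟨by simpa [sub_eq_zero] using h0, fun m hm => ?_⟩
  have := hf m (fun h => hm (Or.inr h))
  rw [sub_co, one_co, if_neg (fun h => hm (Or.inl h)), sub_zero] at this
  exact this

theorem Gp.conj {u f : A ω} (hu : G0 w u) (hf : Gp w f) : Gp w (u * f * A.inv u) := by
  apply Gp.of_sub_one
  have : u * f * A.inv u - 1 = u * (f - 1) * A.inv u := by
    calc u * f * A.inv u - 1 = u * f * A.inv u - u * A.inv u := by rw [mul_inv hu.1]
      _ = u * (f - 1) * A.inv u := by noncomm_ring
  rw [this]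
  refine (hu.2.mul hf.sub_one (R := fun m => 0 < w m) ?_).mul hu.inv.2 ?_
  · intro a b ha hb
    rw [map_add]; omega
  · intro a b ha hb
    rw [map_add]; omega
theorem Gm.conj {u f : A ω} (hu : G0 w u) (hf : Gm w f) : Gm w (A.inv u * f * u) := by
  apply Gm.of_sub_one
  have : A.inv u * f * u - 1 = A.inv u * (f - 1) * u := by
    calc A.inv u * f * u - 1 = A.inv u * f * u - A.inv u * u := by rw [inv_mul hu.1]
      _ = A.inv u * (f - 1) * u := by noncomm_ring
  rw [this]
  refine (hu.inv.2.mul hf.sub_one (R := fun m => w m < 0) ?_).mul hu.2 ?_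
  · intro a b ha hb
    rw [map_add]; omega
  · intro a b ha hb
    rw [map_add]; omega

theorem one_of_Gp_of_le {f : A ω} (hf : Gp w f) (h : Sp (fun m => w m ≤ 0) f) : f = 1 := by
  ext m
  rw [one_co]
  by_cases hm : m = 0
  · subst hm; simp [hf.1]
  · rw [if_neg hm]
    by_cases h' : w m ≤ 0
    · exact hf.2 m (by simp [hm]; omega)
    · exact h m h'

/-- existence of the factorisation -/
theorem exists_fac (w : (V → ℕ) →+ ℤ) {g : A ω} (hg : g 0 = 1) (P : (V → ℕ) → Prop) (h0 : P 0)
    (hP : ∀ a b, P a → P b → P (a + b)) (hS : Sp P g) :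
    ∃ a b c : A ω, Gp w a ∧ G0 w b ∧ Gm w c ∧ g = a * b * c ∧ Sp P a ∧ Sp P b ∧ Sp P c := by
  let rp : A ω → A ω := res (fun m => 0 < w m)
  let r0 : A ω → A ω := res (fun m => w m = 0 ∧ m ≠ 0)
  let rm : A ω → A ω := res (fun m => w m < 0)
  have vp : ∀ f, Van 1 (rp f) := fun f => van_one_iff.2 (res_co_neg (by simp))
  have v0 : ∀ f, Van 1 (r0 f) := fun f => van_one_iff.2 (res_co_neg (by simp))
  have vm : ∀ f, Van 1 (rm f) := fun f => van_one_iff.2 (res_co_neg (by simp))
  obtain ⟨f, hf, hfP⟩ := exists_fixed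
    (fun f : A ω => g - 1 - (rp f * r0 f + rp f * rm f + r0 f * rm f + rp f * r0 f * rm f)) (by
    intro N f f' h
    have dp : Van N (rp f - rp f') := by rw [← res_sub]; exact h.res _
    have d0 : Van N (r0 f - r0 f') := by rw [← res_sub]; exact h.res _
    have dm : Van N (rm f - rm f') := by rw [← res_sub]; exact h.res _
    have key : ∀ x x' y y' : A ω, Van 1 x → Van N (x - x') → Van 1 y' → Van N (y - y') →
        Van (N + 1) (x * y - x' * y') := by
      intro x x' y y' hx hxx hy hyy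
      have : x * y - x' * y' = x * (y - y') + (x - x') * y' := by noncomm_ring
      rw [this]
      have e1 := hx.mul hyy
      rw [add_comm 1 N] at e1
      exact e1.add (hxx.mul hy)
    have k1 := key _ _ _ _ (vp f) dp (v0 f') d0
    have k2 := key _ _ _ _ (vp f) dp (vm f') dm
    have k3 := key _ _ _ _ (v0 f) d0 (vm f') dm
    have k4 := key _ _ _ _ ((vp f).mul (v0 f) |>.mono (by omega)) (k1.mono (Nat.le_succ N))
      (vm f') dm
    have := (((k1.add k2).add k3).add k4).neg
    convert this using 1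
    abel) P (by
    intro f hf
    have e1 : Sp P (rp f) := hf.res' _
    have e2 : Sp P (r0 f) := hf.res' _
    have e3 : Sp P (rm f) := hf.res' _
    exact (hS.sub (Sp.one h0)).sub ((((e1.mul e2 hP).add (e1.mul e3 hP)).add (e2.mul e3 hP)).add
      ((e1.mul e2 hP).mul e3 hP)))
  have hf0 : f 0 = 0 := by
    rw [← hf]
    have e1 : rp f 0 = 0 := van_one_iff.1 (vp f)
    have e2 : r0 f 0 = 0 := van_one_iff.1 (v0 f)
    have e3 : rm f 0 = 0 := van_one_iff.1 (vm f)
    simp only [sub_co, add_co, mul_co_zero, e1, e2, e3, hg, one_co_zero]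
    ring
  have hsum : f = rp f + r0 f + rm f := by
    ext m
    rw [add_co, add_co]
    by_cases hm : m = 0
    · subst hm
      have e1 : rp f 0 = 0 := van_one_iff.1 (vp f)
      have e2 : r0 f 0 = 0 := van_one_iff.1 (v0 f)
      have e3 : rm f 0 = 0 := van_one_iff.1 (vm f)
      rw [hf0, e1, e2, e3]; ring
    · rcases lt_trichotomy (w m) 0 with h | h | h
      · have e1 : rp f m = 0 := res_co_neg (by omega)
        have e2 : r0 f m = 0 := res_co_neg (by rintro ⟨h', -⟩; omega)
        have e3 : rm f m = f m := res_co_pos h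
        rw [e1, e2, e3]; ring
      · have e1 : rp f m = 0 := res_co_neg (by omega)
        have e2 : r0 f m = f m := res_co_pos ⟨h, hm⟩
        have e3 : rm f m = 0 := res_co_neg (by omega)
        rw [e1, e2, e3]; ring
      · have e1 : rp f m = f m := res_co_pos h
        have e2 : r0 f m = 0 := res_co_neg (by rintro ⟨h', -⟩; omega)
        have e3 : rm f m = 0 := res_co_neg (by omega)
        rw [e1, e2, e3]; ring
  refine ⟨1 + rp f, 1 + r0 f, 1 + rm f, ?_, ?_, ?_, ?_, ?_, ?_, ?_⟩
  · apply Gp.of_sub_one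
    rw [add_sub_cancel_left]
    exact Sp.res _ _
  · refine ⟨?_, (Sp.one (map_zero w)).add ((Sp.res _ _).mono fun m hm => hm.1)⟩
    have e2 : r0 f 0 = 0 := van_one_iff.1 (v0 f)
    rw [add_co, e2]; simp
  · apply Gm.of_sub_one
    rw [add_sub_cancel_left]
    exact Sp.res _ _
  · have : (1 + rp f) * (1 + r0 f) * (1 + rm f) = 1 + (rp f + r0 f + rm f) +
        (rp f * r0 f + rp f * rm f + r0 f * rm f + rp f * r0 f * rm f) := by noncomm_ring
    rw [this, ← hsum]
    nth_rewrite 1 [← hf]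
    abel
  · exact (Sp.one h0).add (hfP.res' _)
  · exact (Sp.one h0).add (hfP.res' _)
  · exact (Sp.one h0).add (hfP.res' _)

/-- uniqueness of the factorisation -/
theorem fac_unique {a b c a' b' c' : A ω} (ha : Gp w a) (hb : G0 w b) (hc : Gm w c)
    (ha' : Gp w a') (hb' : G0 w b') (hc' : Gm w c') (h : a * b * c = a' * b' * c') :
    a = a' ∧ b = b' ∧ c = c' := by
  -- `inv a' * a * b = b' * (c' * inv c)`
  have e1 : (A.inv a' * a) * b = b' * (c' * A.inv c) := by
    calc (A.inv a' * a) * b = A.inv a' * (a * b * c) * A.inv c := by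
          rw [mul_assoc (A.inv a') (a * b * c), mul_assoc (a * b) c, mul_inv hc.1]
          noncomm_ring
      _ = (A.inv a' * a') * b' * (c' * A.inv c) := by rw [h]; noncomm_ring
      _ = b' * (c' * A.inv c) := by rw [inv_mul ha'.1, one_mul]
  have u1 : Gp w (A.inv a' * a) := ha'.inv.mul ha
  have u2 : Gm w (c' * A.inv c) := hc'.mul hc.inv
  have s1 : A.inv a' * a = b' * (c' * A.inv c) * A.inv b := by
    rw [← e1, mul_assoc, mul_inv hb.1, mul_one]
  have t1 : Sp (fun m => w m ≤ 0) (A.inv a' * a) := by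
    rw [s1]
    refine (hb'.2.mul u2.2 (R := fun m => w m ≤ 0) ?_).mul hb.inv.2 ?_
    · rintro x y hx (rfl | hy)
      · rw [add_zero]; omega
      · rw [map_add]; omega
    · intro x y hx hy
      rw [map_add]; omega
  have v1 : A.inv a' * a = 1 := one_of_Gp_of_le u1 t1
  have w1 : a = a' := by
    refine mul_left_cancel' ha'.inv.1 ?_
    rw [v1, inv_mul ha'.1]
  have e2 : A.inv b' * b = c' * A.inv c := by
    rw [v1, one_mul] at e1
    rw [e1, ← mul_assoc, inv_mul hb'.1, one_mul]
  have v2 : A.inv b' * b = 1 := by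
    ext m
    rw [one_co]
    by_cases hm : m = 0
    · subst hm; simp [(hb'.inv.mul hb).1]
    · rw [if_neg hm]
      by_cases h' : w m = 0
      · rw [e2]
        exact u2.2 m (by simp [hm]; omega)
      · exact (hb'.inv.mul hb).2 m h'
  have w2 : b = b' := by
    refine mul_left_cancel' hb'.inv.1 ?_
    rw [v2, inv_mul hb'.1]
  refine ⟨w1, w2, ?_⟩
  subst w1 w2
  exact mul_left_cancel' (mul_co_zero_one ha.1 hb.1) h

open Classical in
/-- the zero part -/
noncomputable def pr (w : (V → ℕ) →+ ℤ) (g : A ω) : A ω :=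
  if h : ∃ b : A ω, ∃ a c : A ω, Gp w a ∧ G0 w b ∧ Gm w c ∧ g = a * b * c then h.choose else 1

theorem pr_eq {a b c : A ω} (ha : Gp w a) (hb : G0 w b) (hc : Gm w c) :
    pr w (a * b * c) = b := by
  have h : ∃ b' : A ω, ∃ a' c' : A ω, Gp w a' ∧ G0 w b' ∧ Gm w c' ∧ a * b * c = a' * b' * c' :=
    ⟨b, a, c, ha, hb, hc, rfl⟩
  rw [pr, dif_pos h]
  obtain ⟨a', c', h1, h2, h3, h4⟩ := h.choose_spec
  exact (fac_unique ha hb hc h1 h2 h3 h4).2.1.symm

theorem pr_spec (w : (V → ℕ) →+ ℤ) {g : A ω} (hg : g 0 = 1) :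
    ∃ a c : A ω, Gp w a ∧ G0 w (pr w g) ∧ Gm w c ∧ g = a * pr w g * c := by
  obtain ⟨a, b, c, ha, hb, hc, h, -⟩ := exists_fac w hg (fun _ => True) trivial
    (fun _ _ _ _ => trivial) (fun _ h => absurd trivial h)
  have : pr w g = b := by rw [h]; exact pr_eq ha hb hc
  rw [this]
  exact ⟨a, c, ha, hb, hc, h⟩

theorem pr_G0 (w : (V → ℕ) →+ ℤ) {g : A ω} (hg : g 0 = 1) : G0 w (pr w g) := by
  obtain ⟨a, c, -, h, -⟩ := pr_spec w hg
  exact h

theorem Sp.pr (w : (V → ℕ) →+ ℤ) {g : A ω} (hg : g 0 = 1) {P : (V → ℕ) → Prop} (h0 : P 0)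
    (hP : ∀ a b, P a → P b → P (a + b)) (hS : Sp P g) : Sp P (pr w g) := by
  obtain ⟨a, b, c, ha, hb, hc, h, -, hPb, -⟩ := exists_fac w hg P h0 hP hS
  have : A.pr w g = b := by rw [h]; exact pr_eq ha hb hc
  rwa [this]

theorem pr_of_G0 {u : A ω} (hu : G0 w u) : pr w u = u := by
  have := pr_eq (Gp.one (w := w)) hu Gm.one
  simpa using this

theorem pr_Gp_mul {u g : A ω} (hu : Gp w u) (hg : g 0 = 1) : pr w (u * g) = pr w g := by
  obtain ⟨a, c, ha, hb, hc, h⟩ := pr_spec w hg
  have e : u * g = (u * a) * pr w g * c := by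
    nth_rewrite 1 [h]; noncomm_ring
  rw [e]
  exact pr_eq (hu.mul ha) hb hc
theorem pr_mul_Gm {u g : A ω} (hu : Gm w u) (hg : g 0 = 1) : pr w (g * u) = pr w g := by
  obtain ⟨a, c, ha, hb, hc, h⟩ := pr_spec w hg
  have e : g * u = a * pr w g * (c * u) := by
    nth_rewrite 1 [h]; noncomm_ring
  rw [e]
  exact pr_eq ha hb (hc.mul hu)
theorem pr_G0_mul {u g : A ω} (hu : G0 w u) (hg : g 0 = 1) : pr w (u * g) = u * pr w g := by
  obtain ⟨a, c, ha, hb, hc, h⟩ := pr_spec w hg
  have e : u * g = (u * a * A.inv u) * (u * pr w g) * c := by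
    nth_rewrite 1 [h]
    calc u * (a * pr w g * c) = u * a * 1 * pr w g * c := by noncomm_ring
      _ = u * a * (A.inv u * u) * pr w g * c := by rw [inv_mul hu.1]
      _ = _ := by noncomm_ring
  rw [e]
  exact pr_eq (Gp.conj hu ha) (hu.mul hb) hc
theorem pr_mul_G0 {u g : A ω} (hu : G0 w u) (hg : g 0 = 1) : pr w (g * u) = pr w g * u := by
  obtain ⟨a, c, ha, hb, hc, h⟩ := pr_spec w hg
  have e : g * u = a * (pr w g * u) * (A.inv u * c * u) := by
    nth_rewrite 1 [h]
    calc a * pr w g * c * u = a * pr w g * 1 * c * u := by noncomm_ring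
      _ = a * pr w g * (u * A.inv u) * c * u := by rw [mul_inv hu.1]
      _ = _ := by noncomm_ring
  rw [e]
  exact pr_eq ha (hb.mul hu) (Gm.conj hu hc)

theorem pr_of_Gp {g : A ω} (hg : Gp w g) : pr w g = 1 := by
  have := pr_eq hg (G0.one (w := w)) Gm.one
  simpa using this

/-- the leading terms of the zero part -/
theorem pr_lead {N : ℕ} {g h : A ω} (hg : g 0 = 1) (hh : h 0 = 1) (hv : Van N (g - h)) :
    Van N (pr w g - pr w h) ∧ ∀ m, deg m = N → w m = 0 → (pr w g - pr w h) m = (g - h) m := by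
  obtain ⟨a, c, ha, hb, hc, e⟩ := pr_spec w hg
  obtain ⟨a', c', ha', hb', hc', e'⟩ := pr_spec w hh
  set b := pr w g with hbdef
  set b' := pr w h with hbdef'
  have key : ∀ M, Van M (a - a') → Van M (b - b') → Van M (c - c') →
      Van (M + 1) ((g - h) - ((a - a') + (b - b') + (c - c'))) := by
    intro M h1 h2 h3
    have e3 : (g - h) - ((a - a') + (b - b') + (c - c')) =
        ((a - a') * (b * c) - (a - a')) + ((a' * ((b - b') * c) - (b - b') * c) +
          ((b - b') * c - (b - b'))) + ((a' * b') * (c - c') - (c - c')) := by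
      rw [e, e']; noncomm_ring
    rw [e3]
    exact ((van_mul_one_sub h1 (mul_co_zero_one hb.1 hc.1)).add
      ((van_one_mul_sub h2.mul_right ha'.1).add (van_mul_one_sub h2 hc.1))).add
      (van_one_mul_sub h3 (mul_co_zero_one ha'.1 hb'.1))
  have zp : ∀ m, m = 0 ∨ ¬ 0 < w m → (a - a') m = 0 := by
    rintro m (rfl | hm)
    · simp [ha.1, ha'.1]
    · by_cases h0 : m = 0
      · subst h0; simp [ha.1, ha'.1]
      · rw [sub_co, ha.2 m (by simp only [h0, false_or]; exact hm),
          ha'.2 m (by simp only [h0, false_or]; exact hm), sub_zero]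
  have zm : ∀ m, m = 0 ∨ ¬ w m < 0 → (c - c') m = 0 := by
    rintro m (rfl | hm)
    · simp [hc.1, hc'.1]
    · by_cases h0 : m = 0
      · subst h0; simp [hc.1, hc'.1]
      · rw [sub_co, hc.2 m (by simp only [h0, false_or]; exact hm),
          hc'.2 m (by simp only [h0, false_or]; exact hm), sub_zero]
  have z0 : ∀ m, m = 0 ∨ w m ≠ 0 → (b - b') m = 0 := by
    rintro m (rfl | hm)
    · simp [hb.1, hb'.1]
    · rw [sub_co, hb.2 m hm, hb'.2 m hm, sub_zero]
  have main : ∀ M, M ≤ N → Van M (a - a') ∧ Van M (b - b') ∧ Van M (c - c') := by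
    intro M
    induction M with
    | zero => intro _; exact ⟨Van.zero _, Van.zero _, Van.zero _⟩
    | succ M ih =>
      intro hM
      obtain ⟨h1, h2, h3⟩ := ih (by omega)
      have k := key M h1 h2 h3
      have k2 : ∀ m, deg m < M + 1 → (a - a') m + (b - b') m + (c - c') m = 0 := by
        intro m hm
        have e1 := k m hm
        rw [sub_co, hv m (by omega), add_co, add_co] at e1
        linarith
      refine ⟨fun m hm => ?_, fun m hm => ?_, fun m hm => ?_⟩
      · by_cases h0 : 0 < w m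
        · have := k2 m hm
          rw [zm m (Or.inr (by omega)), z0 m (Or.inr (by omega))] at this
          linarith
        · exact zp m (Or.inr h0)
      · by_cases h0 : w m = 0
        · have := k2 m hm
          rw [zm m (Or.inr (by omega)), zp m (Or.inr (by omega))] at this
          linarith
        · exact z0 m (Or.inr h0)
      · by_cases h0 : w m < 0
        · have := k2 m hm
          rw [zp m (Or.inr (by omega)), z0 m (Or.inr (by omega))] at this
          linarith
        · exact zm m (Or.inr h0)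
  obtain ⟨h1, h2, h3⟩ := main N le_rfl
  refine ⟨h2, fun m hm h0 => ?_⟩
  have k := key N h1 h2 h3 m (by omega)
  rw [sub_co (g - h), add_co, add_co, zp m (Or.inr (by omega)), zm m (Or.inr (by omega))] at k
  linarith

end A

end Pool.Agent.H82.SC
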