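import Pool.Agent.H82.SC.Ring

/-!
# The degree filtration, fixed points, inverses, supports
-/

set_option autoImplicit false
set_option linter.unusedSectionVars false

namespace Pool.Agent.H82.SC

open Finset

variable {V : Type*} [Fintype V] [DecidableEq V]

/-- total degree -/
def deg : (V → ℕ) →+ ℕ where
  toFun n := ∑ i, n i
  map_zero' := by simp
  map_add' a b := by simp [Finset.sum_add_distrib]

theorem deg_eq_zero {n : V → ℕ} : deg n = 0 ↔ n = 0 := by
  constructor
  · intro h
    have : ∑ i, n i = 0 := h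
    rw [Finset.sum_eq_zero_iff] at this
    ext i
    exact this i (Finset.mem_univ i)
  · rintro rfl
    simp

theorem deg_pos {n : V → ℕ} (h : n ≠ 0) : 0 < deg n :=
  Nat.pos_of_ne_zero fun h' => h (deg_eq_zero.1 h')

namespace A

variable {ω : V → V → ℤ}

/-- `f` vanishes in degrees `< N` -/
def Van (N : ℕ) (f : A ω) : Prop := ∀ m, deg m < N → f m = 0

theorem Van.zero (f : A ω) : Van 0 f := fun _ h => absurd h (Nat.not_lt_zero _)
theorem Van.mono {M N : ℕ} {f : A ω} (h : Van N f) (hMN : M ≤ N) : Van M f :=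
  fun m hm => h m (lt_of_lt_of_le hm hMN)
theorem Van.add {N : ℕ} {f g : A ω} (hf : Van N f) (hg : Van N g) : Van N (f + g) :=
  fun m hm => by rw [add_co, hf m hm, hg m hm, add_zero]
theorem Van.sub {N : ℕ} {f g : A ω} (hf : Van N f) (hg : Van N g) : Van N (f - g) :=
  fun m hm => by rw [sub_co, hf m hm, hg m hm, sub_zero]
theorem Van.neg {N : ℕ} {f : A ω} (hf : Van N f) : Van N (-f) :=
  fun m hm => by rw [neg_co, hf m hm, neg_zero]
theorem Van.mul {M N : ℕ} {f g : A ω} (hf : Van M f) (hg : Van N g) : Van (M + N) (f * g) := by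
  intro m hm
  refine mul_co_eq_zero fun a b hab => ?_
  by_cases ha : deg a < M
  · exact Or.inl (hf a ha)
  · refine Or.inr (hg b ?_)
    rw [← hab, map_add] at hm
    omega
theorem Van.mul_left {N : ℕ} {f g : A ω} (hg : Van N g) : Van N (f * g) := by
  simpa using (Van.zero f).mul hg
theorem Van.mul_right {N : ℕ} {f g : A ω} (hf : Van N f) : Van N (f * g) := by
  simpa using hf.mul (Van.zero g)

theorem van_zero_el (N : ℕ) : Van N (0 : A ω) := fun _ _ => rfl

theorem van_one_iff {f : A ω} : Van 1 f ↔ f 0 = 0 := by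
  constructor
  · intro h
    exact h 0 (by simp)
  · intro h m hm
    have : m = 0 := deg_eq_zero.1 (by omega)
    rw [this, h]

theorem eq_zero_of_van {f : A ω} (h : ∀ N, Van N f) : f = 0 := by
  ext m
  exact h (deg m + 1) m (Nat.lt_succ_self _)

theorem van_succ_iff {N : ℕ} {f : A ω} : Van (N + 1) f ↔ Van N f ∧ ∀ m, deg m = N → f m = 0 := by
  constructor
  · intro h
    exact ⟨h.mono (Nat.le_succ N), fun m hm => h m (by omega)⟩
  · rintro ⟨h1, h2⟩ m hm
    rcases Nat.lt_succ_iff_lt_or_eq.1 hm with h | h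
    · exact h1 m h
    · exact h2 m h

/-- supports -/
def Sp (P : (V → ℕ) → Prop) (f : A ω) : Prop := ∀ m, ¬ P m → f m = 0

theorem Sp.mul {P Q R : (V → ℕ) → Prop} {f g : A ω} (hf : Sp P f) (hg : Sp Q g)
    (h : ∀ a b, P a → Q b → R (a + b)) : Sp R (f * g) := by
  intro m hm
  refine mul_co_eq_zero fun a b hab => ?_
  by_cases ha : P a
  · by_cases hb : Q b
    · exact absurd (hab ▸ h a b ha hb) hm
    · exact Or.inr (hg b hb)
  · exact Or.inl (hf a ha)
theorem Sp.add {P : (V → ℕ) → Prop} {f g : A ω} (hf : Sp P f) (hg : Sp P g) : Sp P (f + g) :=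
  fun m hm => by rw [add_co, hf m hm, hg m hm, add_zero]
theorem Sp.sub {P : (V → ℕ) → Prop} {f g : A ω} (hf : Sp P f) (hg : Sp P g) : Sp P (f - g) :=
  fun m hm => by rw [sub_co, hf m hm, hg m hm, sub_zero]
theorem Sp.neg {P : (V → ℕ) → Prop} {f : A ω} (hf : Sp P f) : Sp P (-f) :=
  fun m hm => by rw [neg_co, hf m hm, neg_zero]
theorem Sp.mono {P Q : (V → ℕ) → Prop} {f : A ω} (hf : Sp P f) (h : ∀ m, P m → Q m) : Sp Q f :=
  fun m hm => hf m fun hP => hm (h m hP)
theorem Sp.one {P : (V → ℕ) → Prop} (h : P 0) : Sp P (1 : A ω) := by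
  intro m hm
  rw [one_co, if_neg]
  rintro rfl
  exact hm h
theorem Sp.zero_el (P : (V → ℕ) → Prop) : Sp P (0 : A ω) := fun _ _ => rfl

/-- the fixed point theorem -/
theorem exists_fixed (F : A ω → A ω)
    (hF : ∀ N f g, Van N (f - g) → Van (N + 1) (F f - F g))
    (P : (V → ℕ) → Prop) (hP : ∀ f, Sp P f → Sp P (F f)) : ∃ f, F f = f ∧ Sp P f := by
  let u : ℕ → A ω := fun N => F^[N] 0
  have hu : ∀ N, u (N + 1) = F (u N) := fun N => Function.iterate_succ_apply' F N 0
  have h1 : ∀ N, Van N (u (N + 1) - u N) := by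
    intro N
    induction N with
    | zero => exact Van.zero _
    | succ N ih =>
      rw [hu (N + 1), hu N]
      rw [hu N] at ih
      exact hF N _ _ ih
  have h2 : ∀ k N, Van N (u (N + k) - u N) := by
    intro k N
    induction k with
    | zero => simpa using van_zero_el N
    | succ k ih =>
      have := ((h1 (N + k)).mono (Nat.le_add_right N k)).add ih
      simpa [add_assoc] using this
  let f : A ω := ⟨fun m => u (deg m + 1) m⟩
  have h3 : ∀ N, Van N (f - u N) := by
    intro N m hm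
    obtain ⟨k, hk⟩ := Nat.exists_eq_add_of_le (show deg m + 1 ≤ N from hm)
    have := h2 k (deg m + 1) m (Nat.lt_succ_self _)
    rw [sub_co] at this ⊢
    rw [hk]
    change u (deg m + 1) m - _ = 0
    linarith
  refine ⟨f, ?_, ?_⟩
  · rw [← sub_eq_zero]
    refine eq_zero_of_van fun N => ?_
    have e1 := hF N _ _ (h3 N)
    have e2 := h3 (N + 1)
    rw [hu N] at e2
    have e3 := e1.sub e2
    have : F f - F (u N) - (f - F (u N)) = F f - f := by abel
    rw [this] at e3
    exact e3.mono (Nat.le_succ N)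
  · have h4 : ∀ N, Sp P (u N) := by
      intro N
      induction N with
      | zero => exact Sp.zero_el P
      | succ N ih => rw [hu]; exact hP _ ih
    intro m hm
    exact h4 _ m hm

theorem fixed_unique (F : A ω → A ω)
    (hF : ∀ N f g, Van N (f - g) → Van (N + 1) (F f - F g)) {f g : A ω}
    (hf : F f = f) (hg : F g = g) : f = g := by
  rw [← sub_eq_zero]
  refine eq_zero_of_van fun N => ?_
  induction N with
  | zero => exact Van.zero _
  | succ N ih =>
    have := hF N _ _ ih
    rwa [hf, hg] at this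

theorem exists_right_inv {g : A ω} (hg : g 0 = 1) {P : (V → ℕ) → Prop} (h0 : P 0)
    (hP : ∀ a b, P a → P b → P (a + b)) (hS : Sp P g) :
    ∃ f : A ω, g * f = 1 ∧ f 0 = 1 ∧ Sp P f := by
  have hv : Van 1 (g - 1) := van_one_iff.2 (by simp [hg])
  obtain ⟨f, hf, hfP⟩ := exists_fixed (fun f : A ω => 1 - (g - 1) * f) (by
    intro N f f' h
    have : (1 - (g - 1) * f) - (1 - (g - 1) * f') = -((g - 1) * (f - f')) := by noncomm_ring
    rw [this]
    have := (hv.mul h).neg
    rwa [add_comm 1 N] at this) P (by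
    intro f hf
    exact (Sp.one h0).sub ((hS.sub (Sp.one h0)).mul hf hP))
  refine ⟨f, ?_, ?_, hfP⟩
  · have : g * f = f + (g - 1) * f := by noncomm_ring
    rw [this]
    nth_rewrite 1 [← hf]
    simp
  · have := congrArg (fun x : A ω => x 0) hf
    simp [hg] at this
    exact this.symm

theorem isUnit_of_co {g : A ω} (hg : g 0 = 1) : IsUnit g := by
  obtain ⟨f, hf, hf0, -⟩ := exists_right_inv hg (P := fun _ => True) trivial
    (fun _ _ _ _ => trivial) (fun _ h => absurd trivial h)
  obtain ⟨k, hk, -, -⟩ := exists_right_inv hf0 (P := fun _ => True) trivial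
    (fun _ _ _ _ => trivial) (fun _ h => absurd trivial h)
  have : g = k := by
    calc g = g * (f * k) := by rw [hk, mul_one]
      _ = k := by rw [← mul_assoc, hf, one_mul]
  rw [← this] at hk
  exact ⟨⟨g, f, hf, hk⟩, rfl⟩

/-- the inverse -/
noncomputable def inv (g : A ω) : A ω := Ring.inverse g

theorem mul_inv {g : A ω} (hg : g 0 = 1) : g * inv g = 1 :=
  Ring.mul_inverse_cancel g (isUnit_of_co hg)
theorem inv_mul {g : A ω} (hg : g 0 = 1) : inv g * g = 1 :=
  Ring.inverse_mul_cancel g (isUnit_of_co hg)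

theorem inv_unique {g f : A ω} (hg : g 0 = 1) (h : g * f = 1) : f = inv g := by
  calc f = inv g * g * f := by rw [inv_mul hg, one_mul]
    _ = inv g := by rw [mul_assoc, h, mul_one]

theorem inv_unique' {g f : A ω} (hg : g 0 = 1) (h : f * g = 1) : f = inv g := by
  calc f = f * (g * inv g) := by rw [mul_inv hg, mul_one]
    _ = inv g := by rw [← mul_assoc, h, one_mul]

theorem Sp.inv {g : A ω} (hg : g 0 = 1) {P : (V → ℕ) → Prop} (h0 : P 0)
    (hP : ∀ a b, P a → P b → P (a + b)) (hS : Sp P g) : Sp P (inv g) := by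
  obtain ⟨f, hf, -, hfP⟩ := exists_right_inv hg h0 hP hS
  rwa [← inv_unique hg hf]

theorem inv_co_zero {g : A ω} (hg : g 0 = 1) : inv g 0 = 1 := by
  have := congrArg (fun x : A ω => x 0) (mul_inv hg)
  simpa [hg] using this

theorem mul_co_zero_one {f g : A ω} (hf : f 0 = 1) (hg : g 0 = 1) : (f * g) 0 = 1 := by
  rw [mul_co_zero, hf, hg, mul_one]

theorem inv_inv {g : A ω} (hg : g 0 = 1) : inv (inv g) = g :=
  (inv_unique (inv_co_zero hg) (inv_mul hg)).symm

theorem inv_mul_rev {f g : A ω} (hf : f 0 = 1) (hg : g 0 = 1) :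
    inv (f * g) = inv g * inv f := by
  refine (inv_unique (mul_co_zero_one hf hg) ?_).symm
  calc f * g * (inv g * inv f) = f * (g * inv g) * inv f := by noncomm_ring
    _ = 1 := by rw [mul_inv hg, mul_one, mul_inv hf]

@[simp] theorem inv_one : inv (1 : A ω) = 1 := (inv_unique (by simp) (by simp)).symm

theorem mul_left_cancel' {f g h : A ω} (hf : f 0 = 1) (e : f * g = f * h) : g = h := by
  calc g = inv f * (f * g) := by rw [← mul_assoc, inv_mul hf, one_mul]
    _ = h := by rw [e, ← mul_assoc, inv_mul hf, one_mul]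

theorem mul_right_cancel' {f g h : A ω} (hf : f 0 = 1) (e : g * f = h * f) : g = h := by
  calc g = (g * f) * inv f := by rw [mul_assoc, mul_inv hf, mul_one]
    _ = h := by rw [e, mul_assoc, mul_inv hf, mul_one]

/-- multiplication by a series with constant term one does not change the leading terms -/
theorem van_mul_one_sub {N : ℕ} {x y : A ω} (hx : Van N x) (hy : y 0 = 1) :
    Van (N + 1) (x * y - x) := by
  have : x * y - x = x * (y - 1) := by noncomm_ring
  rw [this]
  exact hx.mul (van_one_iff.2 (by simp [hy]))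
theorem van_one_mul_sub {N : ℕ} {x y : A ω} (hx : Van N x) (hy : y 0 = 1) :
    Van (N + 1) (y * x - x) := by
  have : y * x - x = (y - 1) * x := by noncomm_ring
  rw [this, add_comm]
  exact (van_one_iff.2 (by simp [hy])).mul hx

/-- the derivation attached to an additive function -/
def D (l : (V → ℕ) →+ ℤ) (f : A ω) : A ω := ⟨fun m => (l m : ℚ) * f m⟩

@[simp] theorem D_co (l : (V → ℕ) →+ ℤ) (f : A ω) (m : V → ℕ) : D l f m = (l m : ℚ) * f m := rfl
theorem D_add (l : (V → ℕ) →+ ℤ) (f g : A ω) : D l (f + g) = D l f + D l g := by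
  ext m; simp [mul_add]
theorem D_sub (l : (V → ℕ) →+ ℤ) (f g : A ω) : D l (f - g) = D l f - D l g := by
  ext m; simp [mul_sub]
@[simp] theorem D_one (l : (V → ℕ) →+ ℤ) : D l (1 : A ω) = 0 := by
  ext m
  rw [D_co, one_co]
  by_cases h : m = 0
  · subst h; simp
  · simp [h]
theorem D_mul (l : (V → ℕ) →+ ℤ) (f g : A ω) : D l (f * g) = D l f * g + f * D l g := by
  ext m
  rw [D_co, add_co, mul_co, mul_co, mul_co, Finset.mul_sum, ← Finset.sum_add_distrib]
  refine Finset.sum_congr rfl fun a ha => ?_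
  obtain ⟨b, rfl⟩ := exists_add_of_le (Finset.mem_Iic.1 ha)
  rw [add_tsub_cancel_left, D_co, D_co, map_add]
  push_cast
  ring
theorem D_comm (l l' : (V → ℕ) →+ ℤ) (f : A ω) : D l (D l' f) = D l' (D l f) := by
  ext m
  simp only [D_co]
  ring
theorem D_inv (l : (V → ℕ) →+ ℤ) {f : A ω} (hf : f 0 = 1) :
    D l (inv f) = - (inv f * D l f * inv f) := by
  have h : D l (f * inv f) = 0 := by rw [mul_inv hf, D_one]
  rw [D_mul] at h
  have h2 : f * D l (inv f) = - (D l f * inv f) := by
    rw [eq_neg_iff_add_eq_zero, add_comm]; exact h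
  refine mul_left_cancel' hf ?_
  rw [h2]
  calc - (D l f * inv f) = - (1 * D l f * inv f) := by rw [one_mul]
    _ = f * - (inv f * D l f * inv f) := by rw [← mul_inv hf]; noncomm_ring
theorem Sp.D {P : (V → ℕ) → Prop} {f : A ω} (l : (V → ℕ) →+ ℤ) (hf : Sp P f) : Sp P (D l f) :=
  fun m hm => by rw [D_co, hf m hm, mul_zero]
theorem Van.D {N : ℕ} {f : A ω} (l : (V → ℕ) →+ ℤ) (hf : Van N f) : Van N (D l f) :=
  fun m hm => by rw [D_co, hf m hm, mul_zero]
theorem van_one_D (l : (V → ℕ) →+ ℤ) (f : A ω) : Van 1 (A.D l f) :=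
  van_one_iff.2 (by simp)

end A

end Pool.Agent.H82.SC
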