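import Pool.Agent.H82.SC.GB

/-!
# Mutation of the distinguished element
-/

set_option autoImplicit false
set_option linter.unusedSectionVars false

namespace Pool.Agent.H82.SC

open Finset A

variable {V : Type*} [Fintype V] [DecidableEq V]

/-- matrix mutation -/
def mu (k : V) (ω : V → V → ℤ) : V → V → ℤ := fun i j =>
  if i = k ∨ j = k then - ω i j else
    ω i j + max (ω i k) 0 * max (ω k j) 0 - max (- ω i k) 0 * max (- ω k j) 0

theorem tp_mu (k : V) (ω : V → V → ℤ) : tp (mu k ω) = mu k (tp ω) := by
  funext i j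
  simp only [tp, mu]
  by_cases hi : i = k
  · simp [hi]
  · by_cases hj : j = k
    · simp [hj]
    · simp only [hi, hj, or_self, if_false]
      ring

theorem Skew.mu {ω : V → V → ℤ} (hω : Skew ω) (k : V) : Skew (SC.mu k ω) := by
  intro i j
  simp only [SC.mu]
  by_cases hi : i = k
  · simp only [hi, or_true, true_or, if_true]
    rw [hω k j]
  · by_cases hj : j = k
    · simp only [hj, or_true, true_or, if_true]
      rw [hω i k]
    · simp only [hi, hj, or_self, if_false]
      rw [hω i j, hω i k, hω k j]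
      ring_nf

theorem mu_left {ω : V → V → ℤ} (k l : V) : mu k ω k l = - ω k l := by simp [mu]
theorem mu_left' {ω : V → V → ℤ} (hω : Skew ω) (k l : V) : mu k ω k l = tp ω k l := by
  rw [mu_left, tp, ← hω]

theorem be_mu {ω : V → V → ℤ} (hω : Skew ω) (k : V) : be (mu k ω) k = be (tp ω) k := by
  refine DFunLike.ext _ _ fun m => ?_
  rw [be_apply, be_apply]
  simp only [mu_left' hω]

theorem cf_mu {ω : V → V → ℤ} (k : V) (m : V → ℕ) : cf (mu k ω) k m = - cf ω k m := by
  rw [cf, cf, ← Finset.sum_neg_distrib]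
  refine Finset.sum_congr rfl fun l _ => ?_
  rw [mu_left]; ring

/-- the flip -/
def flv (ω : V → V → ℤ) (k : V) (m : V → ℕ) : V → ℕ := Function.update m k (be ω k m - m k)

theorem flv_self (ω : V → V → ℤ) (k : V) (m : V → ℕ) : flv ω k m k = be ω k m - m k := by
  simp [flv]
theorem flv_ne (ω : V → V → ℤ) {k i : V} (h : i ≠ k) (m : V → ℕ) : flv ω k m i = m i := by
  simp [flv, Function.update_of_ne h]

/-- the integral version of the form identity -/
theorem mu_entry {ω : V → V → ℤ} (hω : Skew ω) (k i j : V) :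
    mu k ω i j = ω i j + (((ω k j).toNat : ℤ) - if j = k then 2 else 0) * ω i k +
      (((ω k i).toNat : ℤ) - if i = k then 2 else 0) * ω k j := by
  simp only [mu]
  have hkk := hω.diag k
  by_cases hi : i = k
  · subst hi
    simp only [true_or, if_true, hkk, Int.toNat_zero]
    push_cast
    ring
  · by_cases hj : j = k
    · subst hj
      simp only [or_true, if_true, hkk, Int.toNat_zero]
      push_cast
      ring
    · simp only [hi, hj, or_self, if_false]
      rw [Int.toNat_eq_max, Int.toNat_eq_max, hω i k]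
      rcases le_total 0 (ω k i) with h1 | h1 <;> rcases le_total 0 (ω k j) with h2 | h2
      · rw [max_eq_right (a := -ω k i) (by omega), max_eq_left (a := ω k j) h2,
          max_eq_left (a := - -ω k i) (by omega), max_eq_right (a := -ω k j) (by omega),
          max_eq_left (a := ω k i) h1]
        ring
      · rw [max_eq_right (a := -ω k i) (by omega), max_eq_right (a := ω k j) h2,
          max_eq_left (a := - -ω k i) (by omega), max_eq_left (a := -ω k j) (by omega),
          max_eq_left (a := ω k i) h1]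
        ring
      · rw [max_eq_left (a := -ω k i) (by omega), max_eq_left (a := ω k j) h2,
          max_eq_right (a := - -ω k i) (by omega), max_eq_right (a := -ω k j) (by omega),
          max_eq_right (a := ω k i) h1]
        ring
      · rw [max_eq_left (a := -ω k i) (by omega), max_eq_right (a := ω k j) h2,
          max_eq_right (a := - -ω k i) (by omega), max_eq_left (a := -ω k j) (by omega),
          max_eq_right (a := ω k i) h1]
        ring

theorem flv_cast {ω : V → V → ℤ} {k : V} {m : V → ℕ} (h : SS ω k m) (i : V) :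
    ((flv ω k m i : ℕ) : ℤ) = (m i : ℤ) + ((be ω k m : ℤ) - 2 * m k) * (if i = k then 1 else 0) := by
  by_cases hi : i = k
  · subst hi
    rw [flv_self, if_pos rfl]
    unfold SS at h
    omega
  · rw [flv_ne ω hi, if_neg hi]
    ring

theorem form_flip {ω : V → V → ℤ} (hω : Skew ω) (k : V) (a b : V → ℕ) (ha : SS ω k a)
    (hb : SS ω k b) : form (mu k ω) a b = form ω (flv ω k a) (flv ω k b) := by
  have hkk := hω.diag k
  set s : ℤ := (be ω k a : ℤ) - 2 * a k with hs
  set t : ℤ := (be ω k b : ℤ) - 2 * b k with ht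
  have hsum : ∀ m : V → ℕ, (∑ i, (m i : ℤ) * (((ω k i).toNat : ℤ) - if i = k then 2 else 0)) =
      (be ω k m : ℤ) - 2 * m k := by
    intro m
    have : ∀ i, (m i : ℤ) * (((ω k i).toNat : ℤ) - if i = k then 2 else 0) =
        ((m i * (ω k i).toNat : ℕ) : ℤ) - if i = k then 2 * (m i : ℤ) else 0 := by
      intro i
      by_cases hi : i = k
      · simp only [hi, if_true]; push_cast; ring
      · simp only [hi, if_false]; push_cast; ring
    rw [Finset.sum_congr rfl fun i _ => this i, Finset.sum_sub_distrib, be_apply, Nat.cast_sum,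
      Finset.sum_ite_eq' Finset.univ k, if_pos (Finset.mem_univ k)]
  have e1 : form (mu k ω) a b = form ω a b + t * (∑ i, (a i : ℤ) * ω i k) +
      s * (∑ j, (b j : ℤ) * ω k j) := by
    rw [hs, ht, ← hsum a, ← hsum b, Finset.sum_mul_sum, Finset.sum_mul_sum, Finset.sum_comm (γ := V)]
    unfold form
    rw [← Finset.sum_add_distrib, ← Finset.sum_add_distrib]
    refine Finset.sum_congr rfl fun i _ => ?_
    rw [← Finset.sum_add_distrib, ← Finset.sum_add_distrib]
    refine Finset.sum_congr rfl fun j _ => ?_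
    rw [mu_entry hω]
    ring
  have e2 : form ω (flv ω k a) (flv ω k b) = form ω a b + t * (∑ i, (a i : ℤ) * ω i k) +
      s * (∑ j, (b j : ℤ) * ω k j) := by
    unfold form
    have h1 : ∀ i j, ((flv ω k a i : ℕ) : ℤ) * ((flv ω k b j : ℕ) : ℤ) * ω i j =
        (a i : ℤ) * (b j : ℤ) * ω i j + (if j = k then t * ((a i : ℤ) * ω i k) else 0) +
        (if i = k then s * ((b j : ℤ) * ω k j) else 0) := by
      intro i j
      rw [flv_cast ha, flv_cast hb, ← hs, ← ht]
      by_cases hi : i = k
      · by_cases hj : j = k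
        · simp only [hi, hj, if_true, hkk]; ring
        · simp only [hi, hj, if_true, if_false]; ring
      · by_cases hj : j = k
        · simp only [hi, hj, if_true, if_false]; ring
        · simp only [hi, hj, if_false]; ring
    simp only [h1, Finset.sum_add_distrib]
    congr 1
    · congr 1
      rw [Finset.mul_sum]
      refine Finset.sum_congr rfl fun i _ => ?_
      rw [Finset.sum_ite_eq' Finset.univ k, if_pos (Finset.mem_univ k)]
    · rw [Finset.sum_comm, Finset.mul_sum]
      refine Finset.sum_congr rfl fun j _ => ?_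
      rw [Finset.sum_ite_eq' Finset.univ k, if_pos (Finset.mem_univ k)]
  rw [e1, e2]

theorem be_flv {ω : V → V → ℤ} (hω : Skew ω) (k : V) (m : V → ℕ) :
    be ω k (flv ω k m) = be ω k m := be_update ω (hω.diag k) m _
theorem cf_flv {ω : V → V → ℤ} (hω : Skew ω) (k : V) (m : V → ℕ) :
    cf ω k (flv ω k m) = cf ω k m := cf_update ω (hω.diag k) m _

/-- the flip as a transport datum -/
def flip {ω ω' : V → V → ℤ} (hω : Skew ω) (k : V) (h : ω' = mu k ω) : Tw ω ω' where
  S := SS ω k
  fl := flv ω k
  S_zero := SS_zero ω k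
  S_add := SS_add ω k
  fl_mem a _ := by
    rw [SS, be_flv hω, flv_self]
    exact Nat.sub_le _ _
  fl_fl a ha := by
    ext i
    by_cases hi : i = k
    · subst hi
      rw [flv_self, be_flv hω, flv_self]
      unfold SS at ha
      omega
    · rw [flv_ne ω hi, flv_ne ω hi]
  fl_add a b ha hb := by
    ext i
    by_cases hi : i = k
    · subst hi
      rw [Pi.add_apply, flv_self, flv_self, flv_self, map_add, Pi.add_apply]
      unfold SS at ha hb
      omega
    · rw [Pi.add_apply, flv_ne ω hi, flv_ne ω hi, flv_ne ω hi, Pi.add_apply]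
  form_fl a b ha hb := by rw [h]; exact form_flip hω k a b ha hb

/-- the level: degree without the `k` component -/
def lev (k : V) : (V → ℕ) →+ ℤ where
  toFun m := (deg m : ℤ) - m k
  map_zero' := by simp
  map_add' a b := by rw [map_add, Pi.add_apply]; push_cast; ring

theorem lev_apply (k : V) (m : V → ℕ) : lev k m = (deg m : ℤ) - m k := rfl

theorem deg_update (k : V) (m : V → ℕ) (a : ℕ) :
    (deg (Function.update m k a) : ℤ) = (deg m : ℤ) - m k + a := by
  have h1 : Function.update m k a + Pi.single k (m k) = m + Pi.single k a := by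
    ext i
    by_cases hi : i = k
    · subst hi; simp; omega
    · simp [Pi.single_eq_of_ne hi, Function.update_of_ne hi]
  have h2 := congrArg deg h1
  rw [map_add, map_add] at h2
  have h3 : ∀ a : ℕ, deg (Pi.single k a : V → ℕ) = a := by
    intro a
    change ∑ i, (Pi.single k a : V → ℕ) i = a
    rw [Finset.sum_eq_single k]
    · simp
    · intro l _ hl; rw [Pi.single_eq_of_ne hl]
    · intro h; exact absurd (Finset.mem_univ k) h
  rw [h3, h3] at h2
  omega

theorem lev_flv (ω : V → V → ℤ) (k : V) (m : V → ℕ) : lev k (flv ω k m) = lev k m := by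
  rw [lev_apply, lev_apply, flv_self, flv, deg_update]
  ring

theorem lev_ne {k : V} {n : V → ℕ} (hn : n ≠ Pi.single k (n k)) : lev k n ≠ 0 := by
  intro h
  apply hn
  have h1 := deg_update k n 0
  rw [lev_apply] at h
  have h2 : deg (Function.update n k 0) = 0 := by
    push_cast at h1
    omega
  rw [deg_eq_zero] at h2
  ext i
  by_cases hi : i = k
  · subst hi; simp
  · have := congrFun h2 i
    rw [Function.update_of_ne hi] at this
    rw [Pi.single_eq_of_ne hi, this]
    rfl

theorem dat_flv {ω : V → V → ℤ} {k : V} {n : V → ℕ} (hc : cf ω k n ≤ 0)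
    (hk : n ≠ Pi.single k (n k)) (hne : flv ω k n ≠ n) : dat n = 0 := by
  refine dat_ne fun i h => hne ?_
  by_cases hi : i = k
  · subst hi; exact absurd h hk
  · have hnk : n k = 0 := by rw [h, Pi.single_eq_of_ne (Ne.symm hi)]
    have hni : n i ≠ 0 := by
      intro h'
      apply hk
      rw [hnk, Pi.single_zero, h, h', Pi.single_zero]
    have hcf : cf ω k n = n i * ω k i := by
      rw [cf, Finset.sum_eq_single i]
      · intro l _ hl
        have : n l = 0 := by rw [h, Pi.single_eq_of_ne hl]
        rw [this]; simp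
      · intro h'; exact absurd (Finset.mem_univ i) h'
    have hle : ω k i ≤ 0 := by
      by_contra hpos
      push Not at hpos
      have : 0 < (n i : ℤ) * ω k i := mul_pos (by exact_mod_cast Nat.pos_of_ne_zero hni) hpos
      omega
    have hbe : be ω k n = 0 := by
      rw [h, be_single, Int.toNat_of_nonpos hle, mul_zero]
    ext l
    by_cases hl : l = k
    · subst hl; rw [flv_self, hbe, hnk]
    · rw [flv_ne ω hl]

/-- the invariants of the mutated element in the half space `cf ≤ 0` -/
theorem main_half {ω ω' : V → V → ℤ} (hω : Skew ω) (k : V) (h : ω' = mu k ω) {n : V → ℕ}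
    (h0 : n ≠ 0) (hc : cf ω k n ≤ 0) :
    Psi degZ n ((flip hω k h).tr (hh ω k) * E k) = dat n := by
  set T := flip hω k h with hT
  have hω' : Skew ω' := by rw [h]; exact hω.mu k
  have hc' : cf ω' k n = - cf ω k n := by rw [h, cf_mu]
  have hS : Sp T.S (hh ω k) := hh_Sp hω k
  have htr0 : T.tr (hh ω k) 0 = 1 := by rw [T.tr_zero_co, hh_zero hω]
  have hg0 : (T.tr (hh ω k) * E k : A ω') 0 = 1 := mul_co_zero_one htr0 (E_zero k)
  -- remove the factor `E k`
  have step : ∀ l : (V → ℕ) →+ ℤ, Psi l n (T.tr (hh ω k) * E k) = Psi l n (T.tr (hh ω k)) +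
      if cf ω k n = 0 then ld l (E k : A ω') n else 0 := by
    intro l
    by_cases hz : cf ω k n = 0
    · rw [if_pos hz]
      have hE : G0 (fw ω' n) (E k : A ω') := E_G0 (by rw [fw_single hω', hc', hz]; simp)
      rw [Psi, pr_mul_G0 hE htr0, ld_mul_co hω' l (pr_G0 _ htr0) hE, Psi]
    · rw [if_neg hz, add_zero]
      have hE : Gm (fw ω' n) (E k : A ω') := E_Gm (by rw [fw_single hω', hc']; omega)
      rw [Psi, pr_mul_Gm hE htr0, Psi]
  by_cases hk : n = Pi.single k (n k)
  · have hz := cf_mult hω k hk
    rw [step, if_pos hz, dat_single hω' h0 hk]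
    have hnS : ¬ T.S n := by
      intro hS'
      have h1 : n k ≤ be ω k n := hS'
      rw [hk, be_single, hω.diag] at h1
      simp at h1
      apply h0
      rw [hk, h1, Pi.single_zero]
    rw [Psi_zero_of_Sp degZ htr0 T.S_zero T.S_add (T.Sp_tr _) hnS, zero_add]
  · have step' : ∀ l : (V → ℕ) →+ ℤ, Psi l n (T.tr (hh ω k) * E k) =
        Psi l n (T.tr (hh ω k)) := by
      intro l
      rw [step, ldE_ne l hk]
      simp
    by_cases hnS : T.S n
    · set m := flv ω k n with hm
      have hl : Psi (lev k) n (T.tr (hh ω k)) = Psi (lev k) m (hh ω k) :=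
        T.tr_Psi (fun x _ => (lev_flv ω k x).symm) hS (hh_zero hω k) hnS
      have hcm : cf ω k m ≤ 0 := by rw [hm, cf_flv hω]; exact hc
      have hflm : flv ω k m = n := T.fl_fl n hnS
      have hlev : lev k m = lev k n := lev_flv ω k n
      have hkm : m ≠ Pi.single k (m k) := by
        intro hk'
        apply hk
        ext i
        by_cases hi : i = k
        · subst hi; simp
        · have := congrFun hk' i
          rw [Pi.single_eq_of_ne hi, hm, flv_ne ω hi] at this
          rw [this, Pi.single_eq_of_ne hi]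
      have hm0 : m ≠ 0 := by
        rintro hm0
        exact hkm (by rw [hm0]; simp)
      have hl2 : Psi (lev k) m (hh ω k) = Psi (lev k) m (gB ω) :=
        (Psi_gB_hh' hω (lev k) hcm hkm).symm
      have cl1 := Psi_closed hω degZ (lev k) (n := m) (gB_zero hω)
      have cl2 := Psi_closed hω' degZ (lev k) (n := n) hg0
      rw [gB_Psi hω hm0] at cl1
      rw [step' (lev k), hl, hl2, hlev.symm] at cl2
      have hlq : ((lev k m : ℤ) : ℚ) ≠ 0 := by exact_mod_cast lev_ne hkm
      have hdm : ((degZ m : ℤ) : ℚ) ≠ 0 := by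
        rw [degZ_apply]; exact_mod_cast (deg_pos hm0).ne'
      by_cases hmn : m = n
      · rw [hmn] at cl1 cl2 hlq
        rw [cl1] at cl2
        exact (mul_left_cancel₀ hlq cl2).symm
      · have d1 : dat n = 0 := dat_flv hc hk hmn
        have d2 : dat m = 0 := dat_flv hcm hkm (by rw [hflm]; exact fun h => hmn h.symm)
        rw [d2, mul_zero] at cl1
        have : Psi (lev k) m (gB ω) = 0 := by
          rcases mul_eq_zero.1 cl1 with h' | h'
          · exact absurd h' hdm
          · exact h'
        rw [this, mul_zero] at cl2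
        rw [d1]
        rcases mul_eq_zero.1 cl2.symm with h' | h'
        · exact absurd h' hlq
        · exact h'
    · rw [step', Psi_zero_of_Sp degZ htr0 T.S_zero T.S_add (T.Sp_tr _) hnS]
      exact (dat_not_SS hnS hk).symm

open PowerSeries in
/-- reflecting a product with the palindromic polynomial -/
theorem reflect_transfer {b bs c : ℕ} (hb : b = bs + c) {H Hs H' Hs' : PowerSeries ℚ}
    (hH : ∀ a, b < a → coeff a H = 0) (hHs : ∀ a, bs < a → coeff a Hs = 0)
    (e : H = Hs * (Qp c : PowerSeries ℚ))
    (hH' : ∀ a, coeff a H' = if a ≤ b then coeff (b - a) H else 0)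
    (hHs' : ∀ a, coeff a Hs' = if a ≤ bs then coeff (bs - a) Hs else 0) :
    H' = Hs' * (Qp c : PowerSeries ℚ) := by
  have t1 : ∀ (N : ℕ) (F : PowerSeries ℚ), (∀ a, N < a → coeff a F = 0) →
      ((trunc (N + 1) F : Polynomial ℚ) : PowerSeries ℚ) = F := by
    intro N F hF
    ext a
    rw [Polynomial.coeff_coe, coeff_trunc]
    by_cases h : a < N + 1
    · rw [if_pos h]
    · rw [if_neg h, hF a (by omega)]
  have t2 : ∀ (N : ℕ) (F F' : PowerSeries ℚ), (∀ a, N < a → coeff a F = 0) →
      (∀ a, coeff a F' = if a ≤ N then coeff (N - a) F else 0) →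
      (((trunc (N + 1) F).reflect N : Polynomial ℚ) : PowerSeries ℚ) = F' := by
    intro N F F' hF hF'
    ext a
    rw [Polynomial.coeff_coe, Polynomial.coeff_reflect, hF']
    by_cases h : a ≤ N
    · rw [if_pos h, Polynomial.revAt_le h, coeff_trunc, if_pos (by omega)]
    · rw [if_neg h, Polynomial.revAt_eq_self_of_lt (by omega), coeff_trunc, if_neg (by omega)]
  have e2 : trunc (b + 1) H = trunc (bs + 1) Hs * Qp c := by
    apply Polynomial.coe_injective ℚ
    rw [Polynomial.coe_mul, t1 b H hH, t1 bs Hs hHs, e]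
  have e3 : (trunc (b + 1) H).reflect b = (trunc (bs + 1) Hs).reflect bs * Qp c := by
    rw [e2, hb, Polynomial.reflect_mul _ _ (Nat.lt_succ_iff.1 (natDegree_trunc_lt Hs bs))
      (Qp_natDegree c), Qp_reflect]
  rw [← t2 b H H' hH hH', ← t2 bs Hs Hs' hHs hHs', e3, Polynomial.coe_mul]

theorem coeff_sl_hh {ω : V → V → ℤ} (hω : Skew ω) (k : V) (d : V → ℕ) (a : ℕ)
    (ha : be ω k d < a) : PowerSeries.coeff a (sl k (hh ω k) d) = 0 := by
  rw [coeff_sl]
  refine hh_Sp hω k _ ?_
  rw [SS, Function.update_self, be_update ω (hω.diag k)]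
  omega

theorem coeff_sl_tr {ω ω' : V → V → ℤ} (hω : Skew ω) (k : V) (h : ω' = mu k ω) (f : A ω)
    (d : V → ℕ) (a : ℕ) : PowerSeries.coeff a (sl k ((flip hω k h).tr f) d) =
      if a ≤ be ω k d then PowerSeries.coeff (be ω k d - a) (sl k f d) else 0 := by
  rw [coeff_sl, coeff_sl]
  have hiff : (flip hω k h).S (Function.update d k a) ↔ a ≤ be ω k d := by
    change (Function.update d k a) k ≤ be ω k (Function.update d k a) ↔ _
    rw [Function.update_self, be_update ω (hω.diag k)]
  by_cases ha : a ≤ be ω k d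
  · rw [if_pos ha, Tw.tr_pos _ _ (hiff.2 ha)]
    congr 1
    change flv ω k (Function.update d k a) = _
    rw [flv, Function.update_self, be_update ω (hω.diag k), Function.update_idem]
  · rw [if_neg ha, Tw.tr_neg _ _ (fun h' => ha (hiff.1 h'))]

/-- the mirror map in the other direction -/
def unop {ω : V → V → ℤ} (f : A (tp ω)) : A ω := ⟨f.co⟩
theorem op_unop {ω : V → V → ℤ} (f : A (tp ω)) : op (unop f) = f := rfl
theorem sl_unop {ω : V → V → ℤ} (k : V) (f : A (tp ω)) (d : V → ℕ) :
    sl k (unop f) d = sl k f d := rfl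

/-- the key identity -/
theorem key_identity {ω ω' : V → V → ℤ} (hω : Skew ω) (k : V) (h : ω' = mu k ω)
    (ht : tp ω' = mu k (tp ω)) :
    E k * unop ((flip hω.tp k ht).tr (hh (tp ω) k)) = (flip hω k h).tr (hh ω k) * E k := by
  have hω' : Skew ω' := by rw [h]; exact hω.mu k
  have hcf : ∀ d, cf ω' k d = - cf ω k d := fun d => by rw [h, cf_mu]
  have hs_sl : ∀ d, sl k (hs ω k) d = sl k (hh (tp ω) k) d := fun d => by
    rw [← op_hs hω]; rfl
  have hs_sl' : ∀ d, sl k (hs (tp ω) k) d = sl k (hh ω k) d := fun d => by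
    rw [← op_hh hω]; rfl
  have e : E k * hh ω k = hs ω k * E k := by rw [E_mul_hh, hs_mul_E]
  have e' : E k * hh (tp ω) k = hs (tp ω) k * E k := by rw [E_mul_hh, hs_mul_E]
  refine of_sl_compare hω' (fun d c hc => ?_) (fun d c hc => ?_)
  · -- `cf ω k d = -c`
    have hc1 : cf (tp ω) k d = c := by
      rw [cf_tp hω]
      have := hcf d
      omega
    have h1 := sl_compare hω.tp e' d c hc1
    rw [hs_sl'] at h1
    rw [sl_unop]
    have hb := cf_eq hω.tp k d
    rw [tp_tp] at hb
    exact reflect_transfer (b := be (tp ω) k d) (bs := be ω k d) (by omega)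
      (fun a ha => coeff_sl_hh hω.tp k d a ha) (fun a ha => coeff_sl_hh hω k d a ha) h1
      (fun a => coeff_sl_tr hω.tp k ht _ d a) (fun a => coeff_sl_tr hω k h _ d a)
  · have hc1 : cf ω k d = c := by
      have := hcf d
      omega
    have h1 := sl_compare hω e d c hc1
    rw [hs_sl] at h1
    rw [sl_unop]
    have hb := cf_eq hω k d
    exact reflect_transfer (b := be ω k d) (bs := be (tp ω) k d) (by omega)
      (fun a ha => coeff_sl_hh hω k d a ha) (fun a ha => coeff_sl_hh hω.tp k d a ha) h1
      (fun a => coeff_sl_tr hω k h _ d a) (fun a => coeff_sl_tr hω.tp k ht _ d a)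

/-- mutation of the distinguished element -/
theorem gB_mu {ω ω' : V → V → ℤ} (hω : Skew ω) (k : V) (h : ω' = mu k ω) :
    (flip hω k h).tr (hh ω k) * E k = gB ω' := by
  have hω' : Skew ω' := by rw [h]; exact hω.mu k
  have ht : tp ω' = mu k (tp ω) := by rw [h, tp_mu]
  have hg0 : ((flip hω k h).tr (hh ω k) * E k : A ω') 0 = 1 :=
    mul_co_zero_one (by rw [Tw.tr_zero_co, hh_zero hω]) (E_zero k)
  refine gB_unique hω' hg0 fun n hn => ?_
  rcases le_total (cf ω k n) 0 with hc | hc
  · exact main_half hω k h hn hc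
  · rw [← op_Psi hω' degZ n hg0, ← key_identity hω k h ht, op_mul, op_E, op_unop]
    exact main_half hω.tp k ht hn (by rw [cf_tp hω]; omega)

end Pool.Agent.H82.SC
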