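import Pool.Agent.H82.SC.Eser

/-!
# The distinguished element `gB ω` and the support of its two one-sided quotients by `E k`
-/

set_option autoImplicit false
set_option linter.unusedSectionVars false

namespace Pool.Agent.H82.SC

open Finset

variable {V : Type*} [Fintype V] [DecidableEq V]

/-- multiples of a simple vector are closed under addition -/
theorem mult_add (k : V) (a b : V → ℕ) (ha : a = Pi.single k (a k)) (hb : b = Pi.single k (b k)) :
    a + b = Pi.single k ((a + b) k) := by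
  rw [Pi.add_apply, Pi.single_add, ← ha, ← hb]

theorem mult_zero (k : V) : (0 : V → ℕ) = Pi.single k ((0 : V → ℕ) k) := by simp

theorem form_mult {ω : V → V → ℤ} (hω : Skew ω) (k : V) (a b : V → ℕ)
    (ha : a = Pi.single k (a k)) (hb : b = Pi.single k (b k)) : form ω a b = 0 := by
  rw [ha, form_single_left]
  have : cf ω k b = 0 := by
    rw [hb, cf]
    refine Finset.sum_eq_zero fun l _ => ?_
    by_cases h : l = k
    · subst h; rw [hω.diag]; simp
    · simp [Pi.single_eq_of_ne h]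
  rw [this, mul_zero]

/-- the identity on multiples of a simple vector -/
def idTw {ω ω' : V → V → ℤ} (hω : Skew ω) (hω' : Skew ω') (k : V) : Tw ω ω' where
  S m := m = Pi.single k (m k)
  fl m := m
  S_zero := mult_zero k
  S_add := mult_add k
  fl_mem _ h := h
  fl_fl _ _ := rfl
  fl_add _ _ _ _ := rfl
  form_fl a b ha hb := by rw [form_mult hω k a b ha hb, form_mult hω' k a b ha hb]

namespace A

variable {ω : V → V → ℤ}

theorem ldE_indep {ω ω' : V → V → ℤ} (hω : Skew ω) (hω' : Skew ω') (l : (V → ℕ) →+ ℤ) (k : V)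
    (n : V → ℕ) : ld l (E k : A ω) n = ld l (E k : A ω') n := by
  let T := idTw hω hω' k
  have h1 : T.tr (E k : A ω) = E k := by
    ext m
    by_cases h : T.S m
    · rw [T.tr_pos _ h]; rfl
    · rw [T.tr_neg _ h]
      exact (E_ne h).symm
  have hS : Sp T.S (E k : A ω) := E_Sp k
  have h2 : T.tr (ld l (E k : A ω)) = ld l (E k : A ω') := by
    rw [ld, ld, T.tr_mul (hS.inv (E_zero k) T.S_zero T.S_add) (hS.D l),
      T.tr_inv hS (E_zero k), T.tr_D (l' := l) (fun _ _ => rfl), h1]
  rw [← h2]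
  have hS2 : Sp T.S (ld l (E k : A ω)) :=
    (hS.inv (E_zero k) T.S_zero T.S_add).mul (hS.D l) T.S_add
  by_cases h : T.S n
  · rw [T.tr_pos _ h]; rfl
  · rw [T.tr_neg _ h]
    exact hS2 n h

theorem ldE_ne (l : (V → ℕ) →+ ℤ) {k : V} {n : V → ℕ} (h : n ≠ Pi.single k (n k)) :
    ld l (E k : A ω) n = 0 := by
  have h1 : Sp (fun m : V → ℕ => m = Pi.single k (m k)) (ld l (E k : A ω)) :=
    ((E_Sp k).inv (E_zero k) (mult_zero k) (mult_add k)).mul ((E_Sp k).D l) (mult_add k)
  exact h1 n h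

end A

open A

theorem skew_zero : Skew (fun _ _ : V => (0 : ℤ)) := fun _ _ => by simp

/-- the prescribed data -/
noncomputable def dat (n : V → ℕ) : ℚ := ∑ i, ld degZ (E i : A (fun _ _ : V => (0 : ℤ))) n

theorem dat_ne {n : V → ℕ} (h : ∀ i, n ≠ Pi.single i (n i)) : dat n = 0 :=
  Finset.sum_eq_zero fun i _ => ldE_ne degZ (h i)

theorem dat_single {ω : V → V → ℤ} (hω : Skew ω) {n : V → ℕ} {k : V} (h0 : n ≠ 0)
    (h : n = Pi.single k (n k)) : dat n = ld degZ (E k : A ω) n := by
  rw [dat, Finset.sum_eq_single k]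
  · exact ldE_indep skew_zero hω degZ k n
  · intro i _ hi
    refine ldE_ne degZ fun h' => h0 ?_
    have : n k = 0 := by
      rw [h', Pi.single_eq_of_ne hi.symm]
    rw [h, this, Pi.single_zero]
  · intro h; exact absurd (Finset.mem_univ k) h

open Classical in
/-- the distinguished element -/
noncomputable def gB (ω : V → V → ℤ) : A ω :=
  if h : Skew ω then (exists_Psi h dat).choose else 1

theorem gB_zero {ω : V → V → ℤ} (hω : Skew ω) : gB ω 0 = 1 := by
  rw [gB, dif_pos hω]
  exact (exists_Psi hω dat).choose_spec.1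

theorem gB_Psi {ω : V → V → ℤ} (hω : Skew ω) {n : V → ℕ} (hn : n ≠ 0) :
    Psi degZ n (gB ω) = dat n := by
  rw [gB, dif_pos hω]
  exact (exists_Psi hω dat).choose_spec.2 n hn

theorem gB_unique {ω : V → V → ℤ} (hω : Skew ω) {g : A ω} (h0 : g 0 = 1)
    (h : ∀ n, n ≠ 0 → Psi degZ n g = dat n) : g = gB ω :=
  Psi_unique hω h0 (gB_zero hω) fun n hn => by rw [h n hn, gB_Psi hω hn]

theorem op_gB {ω : V → V → ℤ} (hω : Skew ω) : op (gB ω) = gB (tp ω) := by
  refine gB_unique hω.tp (by rw [op_co, gB_zero hω]) fun n hn => ?_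
  rw [op_Psi hω degZ n (gB_zero hω), gB_Psi hω hn]

/-- left quotient -/
noncomputable def hh (ω : V → V → ℤ) (k : V) : A ω := inv (E k) * gB ω
/-- right quotient -/
noncomputable def hs (ω : V → V → ℤ) (k : V) : A ω := gB ω * inv (E k)

section

variable {ω : V → V → ℤ}

theorem hh_zero (hω : Skew ω) (k : V) : hh ω k 0 = 1 :=
  mul_co_zero_one (inv_co_zero (E_zero k)) (gB_zero hω)
theorem hs_zero (hω : Skew ω) (k : V) : hs ω k 0 = 1 :=
  mul_co_zero_one (gB_zero hω) (inv_co_zero (E_zero k))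

theorem E_mul_hh (ω : V → V → ℤ) (k : V) : E k * hh ω k = gB ω := by
  rw [hh, ← mul_assoc, mul_inv (E_zero k), one_mul]
theorem hs_mul_E (ω : V → V → ℤ) (k : V) : hs ω k * E k = gB ω := by
  rw [hs, mul_assoc, inv_mul (E_zero k), mul_one]

theorem op_hh (hω : Skew ω) (k : V) : op (hh ω k) = hs (tp ω) k := by
  rw [hh, hs, op_mul, op_gB hω, op_inv (E_zero k), op_E]
theorem op_hs (hω : Skew ω) (k : V) : op (hs ω k) = hh (tp ω) k := by
  rw [hh, hs, op_mul, op_gB hω, op_inv (E_zero k), op_E]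
theorem hs_eq (hω : Skew ω) (k : V) (n : V → ℕ) : hs ω k n = hh (tp ω) k n := by
  rw [← op_hs hω, op_co]

theorem w_single (w : (V → ℕ) →+ ℤ) (k : V) (j : ℕ) :
    w (Pi.single k j) = j * w (Pi.single k 1) := by
  have : (Pi.single k j : V → ℕ) = j • Pi.single k 1 := by
    ext i
    by_cases h : i = k
    · subst h; simp
    · simp [Pi.single_eq_of_ne h]
  rw [this, map_nsmul, nsmul_eq_mul]

theorem E_Gp {w : (V → ℕ) →+ ℤ} {k : V} (h : 0 < w (Pi.single k 1)) : Gp w (E k : A ω) := by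
  refine ⟨E_zero k, (E_Sp k).mono fun m hm => ?_⟩
  by_cases h0 : m = 0
  · exact Or.inl h0
  · right
    have : m k ≠ 0 := fun h' => h0 (by rw [hm, h', Pi.single_zero])
    rw [hm, w_single]
    positivity
theorem E_Gm {w : (V → ℕ) →+ ℤ} {k : V} (h : w (Pi.single k 1) < 0) : Gm w (E k : A ω) := by
  refine ⟨E_zero k, (E_Sp k).mono fun m hm => ?_⟩
  by_cases h0 : m = 0
  · exact Or.inl h0
  · right
    have : 0 < m k := Nat.pos_of_ne_zero fun h' => h0 (by rw [hm, h', Pi.single_zero])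
    rw [hm, w_single]
    exact mul_neg_of_pos_of_neg (by exact_mod_cast this) h
theorem E_G0 {w : (V → ℕ) →+ ℤ} {k : V} (h : w (Pi.single k 1) = 0) : G0 w (E k : A ω) := by
  refine ⟨E_zero k, (E_Sp k).mono fun m hm => ?_⟩
  rw [hm, w_single, h, mul_zero]

theorem fw_single (hω : Skew ω) (k : V) (n : V → ℕ) :
    fw ω n (Pi.single k 1) = - cf ω k n := by
  rw [fw_apply, form_swap hω, form_single_left]
  simp

/-- the invariants of `gB` versus those of `hh` -/
theorem Psi_gB_hh (hω : Skew ω) (l : (V → ℕ) →+ ℤ) {k : V} {n : V → ℕ} (hc : cf ω k n ≤ 0) :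
    Psi l n (gB ω) = Psi l n (hh ω k) + if cf ω k n = 0 then ld l (E k : A ω) n else 0 := by
  rw [← E_mul_hh ω k]
  by_cases h : cf ω k n = 0
  · rw [if_pos h]
    have hE : G0 (fw ω n) (E k : A ω) := E_G0 (by rw [fw_single hω, h, neg_zero])
    rw [Psi, pr_G0_mul hE (hh_zero hω k), ld_mul_co hω l hE (pr_G0 _ (hh_zero hω k)), Psi, add_comm]
  · rw [if_neg h, add_zero]
    have hE : Gp (fw ω n) (E k : A ω) := E_Gp (by rw [fw_single hω]; omega)
    rw [Psi, pr_Gp_mul hE (hh_zero hω k), Psi]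

theorem Psi_gB_hh' (hω : Skew ω) (l : (V → ℕ) →+ ℤ) {k : V} {n : V → ℕ} (hc : cf ω k n ≤ 0)
    (hn : n ≠ Pi.single k (n k)) : Psi l n (gB ω) = Psi l n (hh ω k) := by
  rw [Psi_gB_hh hω l hc, ldE_ne l hn]
  simp

theorem cf_mult (hω : Skew ω) (k : V) {n : V → ℕ} (hn : n = Pi.single k (n k)) :
    cf ω k n = 0 := by
  rw [hn, cf]
  refine Finset.sum_eq_zero fun l _ => ?_
  by_cases h : l = k
  · subst h; rw [hω.diag]; simp
  · simp [Pi.single_eq_of_ne h]

theorem Psi_hh_mult (hω : Skew ω) {k : V} {n : V → ℕ} (h0 : n ≠ 0) (hn : n = Pi.single k (n k)) :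
    Psi degZ n (hh ω k) = 0 := by
  have h := cf_mult hω k hn
  have := Psi_gB_hh hω degZ (k := k) (n := n) h.le
  rw [if_pos h, gB_Psi hω h0, dat_single hω h0 hn] at this
  linarith

/-- the cone condition -/
def SS (ω : V → V → ℤ) (k : V) (m : V → ℕ) : Prop := m k ≤ be ω k m

theorem SS_zero (ω : V → V → ℤ) (k : V) : SS ω k 0 := by simp [SS]
theorem SS_add (ω : V → V → ℤ) (k : V) (a b : V → ℕ) (ha : SS ω k a) (hb : SS ω k b) :
    SS ω k (a + b) := by
  unfold SS at *
  rw [map_add, Pi.add_apply]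
  omega

theorem not_SS_ne_zero {k : V} {n : V → ℕ} (hn : ¬ SS ω k n) : n ≠ 0 := by
  rintro rfl
  exact hn (SS_zero ω k)

/-- a vector outside the cone carries no data, unless it is a multiple of `e_k` -/
theorem dat_not_SS {k : V} {n : V → ℕ} (hn : ¬ SS ω k n) (hk : n ≠ Pi.single k (n k)) :
    dat n = 0 := by
  refine dat_ne fun i h => ?_
  by_cases hi : i = k
  · subst hi; exact hk h
  · have : n k = 0 := by
      rw [h, Pi.single_eq_of_ne (Ne.symm hi)]
    exact hn (by rw [SS, this]; exact Nat.zero_le _)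

theorem hh_half (hω : Skew ω) {k : V} {n : V → ℕ}
    (hlow : ∀ m, deg m < deg n → ¬ SS ω k m → hh ω k m = 0) (hn : ¬ SS ω k n)
    (hc : cf ω k n ≤ 0) : hh ω k n = 0 := by
  have h0 : n ≠ 0 := not_SS_ne_zero hn
  have h1 := Psi_of_low hω degZ (hh_zero hω k) (SS_zero ω k) (SS_add ω k) hlow hn
  have h2 : Psi degZ n (hh ω k) = 0 := by
    by_cases hk : n = Pi.single k (n k)
    · exact Psi_hh_mult hω h0 hk
    · rw [← Psi_gB_hh' hω degZ hc hk, gB_Psi hω h0, dat_not_SS hn hk]
  rw [h2, degZ_apply] at h1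
  have hd : ((deg n : ℤ) : ℚ) ≠ 0 := by exact_mod_cast (deg_pos h0).ne'
  rcases mul_eq_zero.1 h1.symm with h' | h'
  · exact absurd h' hd
  · exact h'

theorem hh_transfer (hω : Skew ω) {k : V} {n : V → ℕ}
    (hlow : ∀ a, a ≤ n k → ¬ SS (tp ω) k (Function.update n k a) →
      hs ω k (Function.update n k a) = 0) (hn : ¬ SS ω k n)
    (hc : 0 ≤ cf ω k n) : hh ω k n = 0 := by
  obtain ⟨c, hc'⟩ := Int.eq_ofNat_of_zero_le hc
  have e : E k * hh ω k = hs ω k * E k := by rw [E_mul_hh, hs_mul_E]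
  have h1 := congrArg (PowerSeries.coeff (n k)) (sl_compare hω e n c hc')
  rw [coeff_sl, Function.update_eq_self] at h1
  rw [h1, PowerSeries.coeff_mul, Finset.Nat.sum_antidiagonal_eq_sum_range_succ_mk]
  have hbe := cf_eq hω k n
  refine Finset.sum_eq_zero fun j hj => ?_
  have hj' : j ≤ n k := Nat.lt_succ_iff.1 (Finset.mem_range.1 hj)
  simp only
  by_cases hjs : j ≤ be (tp ω) k n
  · have : (Qp c).natDegree < n k - j := by
      refine lt_of_le_of_lt (Qp_natDegree c) ?_
      unfold SS at hn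
      omega
    rw [Polynomial.coeff_coe, Polynomial.coeff_eq_zero_of_natDegree_lt this, mul_zero]
  · rw [coeff_sl, hlow j hj', zero_mul]
    rw [SS, Function.update_self, be_update (tp ω) (hω.tp.diag k)]
    exact hjs

theorem deg_update_lt {k : V} {n : V → ℕ} {a : ℕ} (h : a < n k) :
    deg (Function.update n k a) < deg n := by
  have : n = Function.update n k a + Pi.single k (n k - a) := by
    ext i
    by_cases hi : i = k
    · subst hi; simp; omega
    · simp [Pi.single_eq_of_ne hi, Function.update_of_ne hi]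
  nth_rewrite 2 [this]
  rw [map_add]
  have : 0 < deg (Pi.single k (n k - a) : V → ℕ) := deg_pos (by
    intro h'
    have := congrFun h' k
    simp at this
    omega)
  omega

/-- the support of `hh` -/
theorem hh_support (k : V) : ∀ (N : ℕ) (ω : V → V → ℤ), Skew ω → ∀ n : V → ℕ, deg n = N →
    ¬ SS ω k n → hh ω k n = 0 := by
  intro N
  induction N using Nat.strong_induction_on with
  | _ N ih =>
    intro ω hω n hN hn
    rcases le_total (cf ω k n) 0 with hc | hc
    · exact hh_half hω (fun m hm hmS => ih (deg m) (by omega) ω hω m rfl hmS) hn hc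
    · refine hh_transfer hω (fun a ha haS => ?_) hn hc
      rw [hs_eq hω]
      rcases ha.lt_or_eq with ha | ha
      · exact ih _ (by have := deg_update_lt ha; omega) (tp ω) hω.tp _ rfl haS
      · subst ha
        rw [Function.update_eq_self] at haS ⊢
        refine hh_half hω.tp (fun m hm hmS => ih (deg m) (by omega) (tp ω) hω.tp m rfl hmS) haS ?_
        rw [cf_tp hω]; omega

theorem hh_Sp (hω : Skew ω) (k : V) : Sp (SS ω k) (hh ω k) :=
  fun n hn => hh_support k _ ω hω n rfl hn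

end

end Pool.Agent.H82.SC
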