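import Pool.Agent.H82.SC.Fac

/-!
# The invariants `Psi` and the element with prescribed invariants
-/

set_option autoImplicit false
set_option linter.unusedSectionVars false

namespace Pool.Agent.H82.SC

open Finset

variable {V : Type*} [Fintype V] [DecidableEq V]

/-- the form as a weight -/
def fw (ω : V → V → ℤ) (n : V → ℕ) : (V → ℕ) →+ ℤ where
  toFun m := form ω n m
  map_zero' := form_zero_right ω n
  map_add' a b := form_add_right ω n a b

@[simp] theorem fw_apply (ω : V → V → ℤ) (n m : V → ℕ) : fw ω n m = form ω n m := rfl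

/-- the total degree as an integer valued weight -/
def degZ : (V → ℕ) →+ ℤ := (Nat.castAddMonoidHom ℤ).comp deg

@[simp] theorem degZ_apply (m : V → ℕ) : degZ m = (deg m : ℤ) := rfl

namespace A

variable {ω : V → V → ℤ}

/-- product at `n` of two elements of the centraliser-like subalgebra -/
theorem co_mul_of_zero (hω : Skew ω) {n : V → ℕ} {f g : A ω} (hf : Sp (fun m => fw ω n m = 0) f) :
    (f * g) n = ∑ a ∈ Finset.Iic n, f a * g (n - a) := by
  rw [mul_co]
  refine Finset.sum_congr rfl fun a ha => ?_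
  by_cases h : form ω n a = 0
  · obtain ⟨b, rfl⟩ := exists_add_of_le (Finset.mem_Iic.1 ha)
    rw [add_tsub_cancel_left]
    rw [form_add_left, form_self hω, zero_add] at h
    rw [form_swap hω, h]
    simp
  · rw [hf a h]
    simp

theorem trace (hω : Skew ω) {n : V → ℕ} {f g : A ω} (hf : Sp (fun m => fw ω n m = 0) f)
    (hg : Sp (fun m => fw ω n m = 0) g) : (f * g) n = (g * f) n := by
  rw [co_mul_of_zero hω hf, co_mul_of_zero hω hg]
  refine Finset.sum_nbij' (fun a => n - a) (fun a => n - a) ?_ ?_ ?_ ?_ ?_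
  · intro a _; exact Finset.mem_Iic.2 tsub_le_self
  · intro a _; exact Finset.mem_Iic.2 tsub_le_self
  · intro a ha; exact tsub_tsub_cancel_of_le (Finset.mem_Iic.1 ha)
  · intro a ha; exact tsub_tsub_cancel_of_le (Finset.mem_Iic.1 ha)
  · intro a ha
    rw [tsub_tsub_cancel_of_le (Finset.mem_Iic.1 ha), mul_comm]

/-- logarithmic derivative -/
noncomputable def ld (l : (V → ℕ) →+ ℤ) (b : A ω) : A ω := inv b * D l b

theorem ld_mul_co (hω : Skew ω) (l : (V → ℕ) →+ ℤ) {n : V → ℕ} {u v : A ω}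
    (hu : G0 (fw ω n) u) (hv : G0 (fw ω n) v) : ld l (u * v) n = ld l u n + ld l v n := by
  have e : ld l (u * v) = inv v * (inv u * D l u * v) + ld l v := by
    rw [ld, ld, inv_mul_rev hu.1 hv.1, D_mul]
    calc inv v * inv u * (D l u * v + u * D l v)
        = inv v * (inv u * D l u * v) + inv v * ((inv u * u) * D l v) := by noncomm_ring
      _ = _ := by rw [inv_mul hu.1, one_mul]
  have cl : ∀ a b : V → ℕ, fw ω n a = 0 → fw ω n b = 0 → fw ω n (a + b) = 0 := by
    intro a b ha hb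
    rw [map_add]; omega
  rw [e, add_co]
  congr 1
  rw [trace hω hv.inv.2 ((hu.inv.2.mul (hu.2.D l) cl).mul hv.2 cl), mul_assoc, mul_inv hv.1,
    mul_one, ld]

theorem ld_closed (hω : Skew ω) (l l' : (V → ℕ) →+ ℤ) {n : V → ℕ} {b : A ω}
    (hb : G0 (fw ω n) b) : (l n : ℚ) * ld l' b n = (l' n : ℚ) * ld l b n := by
  have cl : ∀ a b : V → ℕ, fw ω n a = 0 → fw ω n b = 0 → fw ω n (a + b) = 0 := by
    intro a b ha hb
    rw [map_add]; omega
  have e : ∀ l l' : (V → ℕ) →+ ℤ, D l (ld l' b) = - (ld l b * ld l' b) + inv b * D l (D l' b) := by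
    intro l l'
    rw [ld, D_mul, D_inv l hb.1, ld]
    noncomm_ring
  have s : ∀ l : (V → ℕ) →+ ℤ, Sp (fun m => fw ω n m = 0) (ld l b) :=
    fun l => hb.inv.2.mul (hb.2.D l) cl
  have e1 := congrArg (fun x : A ω => x n) (e l l')
  have e2 := congrArg (fun x : A ω => x n) (e l' l)
  simp only [D_co, add_co, neg_co] at e1 e2
  rw [e1, e2, trace hω (s l) (s l'), D_comm l l']

theorem ld_one (l : (V → ℕ) →+ ℤ) : ld l (1 : A ω) = 0 := by
  rw [ld, D_one, mul_zero]

/-- the invariant -/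
noncomputable def Psi (l : (V → ℕ) →+ ℤ) (n : V → ℕ) (g : A ω) : ℚ := ld l (pr (fw ω n) g) n

theorem Psi_closed (hω : Skew ω) (l l' : (V → ℕ) →+ ℤ) {n : V → ℕ} {g : A ω}
    (hg : g 0 = 1) : (l n : ℚ) * Psi l' n g = (l' n : ℚ) * Psi l n g :=
  ld_closed hω l l' (pr_G0 _ hg)

/-- the leading term of `Psi` -/
theorem ld_lead (l : (V → ℕ) →+ ℤ) {N : ℕ} {b c : A ω} (hb : b 0 = 1) (hc : c 0 = 1)
    (hv : Van N (b - c)) : ∀ m, deg m = N → ld l b m - ld l c m = (l m : ℚ) * (b m - c m) := by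
  intro m hm
  have e1 : inv b - inv c = inv b * ((c - b) * inv c) := by
    calc inv b - inv c = inv b * (c * inv c) - (inv b * b) * inv c := by
          rw [mul_inv hc, inv_mul hb, mul_one, one_mul]
      _ = _ := by noncomm_ring
  have hv' : Van N (c - b) := by
    have := hv.neg
    rwa [neg_sub] at this
  have v1 : Van N (inv b - inv c) := by
    rw [e1]; exact hv'.mul_right.mul_left
  have e2 : ld l b - ld l c - D l (b - c) = (inv b - inv c) * D l b +
      (inv c * D l (b - c) - D l (b - c)) := by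
    rw [ld, ld, D_sub]; noncomm_ring
  have v2 : Van (N + 1) (ld l b - ld l c - D l (b - c)) := by
    rw [e2]
    exact (v1.mul (van_one_D l b)).add (van_one_mul_sub (hv.D l) (inv_co_zero hc))
  have := v2 m (by omega)
  rw [sub_co, sub_co, D_co, sub_co] at this
  linarith

theorem Psi_lead (hω : Skew ω) (l : (V → ℕ) →+ ℤ) {n : V → ℕ} {g h : A ω}
    (hg : g 0 = 1) (hh : h 0 = 1) (hv : Van (deg n) (g - h)) :
    Psi l n g - Psi l n h = (l n : ℚ) * (g n - h n) := by
  obtain ⟨h1, h2⟩ := pr_lead (w := fw ω n) hg hh hv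
  rw [Psi, Psi, ld_lead l (pr_G0 _ hg).1 (pr_G0 _ hh).1 h1 n rfl]
  have := h2 n rfl (by rw [fw_apply]; exact form_self hω n)
  rw [sub_co, sub_co] at this
  rw [this]

theorem Psi_zero_of_Sp (l : (V → ℕ) →+ ℤ) {n : V → ℕ} {g : A ω} (hg : g 0 = 1)
    {P : (V → ℕ) → Prop} (h0 : P 0) (hP : ∀ a b, P a → P b → P (a + b)) (hS : Sp P g)
    (hn : ¬ P n) : Psi l n g = 0 := by
  have hb := pr_G0 (fw ω n) hg
  have s := hS.pr (fw ω n) hg h0 hP
  exact ((s.inv hb.1 h0 hP).mul (s.D l) hP) n hn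

/-- the value of `Psi` if `g` is supported in a submonoid in low degrees -/
theorem Psi_of_low (hω : Skew ω) (l : (V → ℕ) →+ ℤ) {n : V → ℕ} {g : A ω} (hg : g 0 = 1)
    {P : (V → ℕ) → Prop} (h0 : P 0) (hP : ∀ a b, P a → P b → P (a + b))
    (hlow : ∀ m, deg m < deg n → ¬ P m → g m = 0) (hn : ¬ P n) :
    Psi l n g = (l n : ℚ) * g n := by
  have h1 : res P g 0 = 1 := by rw [res_co_pos h0, hg]
  have h2 : Van (deg n) (g - res P g) := by
    intro m hm
    rw [sub_co]
    by_cases h : P m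
    · rw [res_co_pos h, sub_self]
    · rw [res_co_neg h, hlow m hm h, sub_zero]
  have h3 := Psi_lead hω l hg h1 h2
  rw [Psi_zero_of_Sp l h1 h0 hP (Sp.res P g) hn, res_co_neg hn] at h3
  linarith

/-- existence of an element with prescribed invariants -/
theorem exists_Psi (hω : Skew ω) (dat : (V → ℕ) → ℚ) :
    ∃ g : A ω, g 0 = 1 ∧ ∀ n, n ≠ 0 → Psi degZ n g = dat n := by
  classical
  let fix1 : A ω → A ω := fun f => ⟨fun m => if m = 0 then 1 else f m⟩
  have fix1_0 : ∀ f, fix1 f 0 = 1 := fun f => by simp [fix1]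
  have fix1_ne : ∀ f m, m ≠ 0 → fix1 f m = f m := fun f m hm => by simp [fix1, hm]
  let F : A ω → A ω := fun f => ⟨fun n => if n = 0 then 1 else
    f n + (dat n - Psi degZ n (fix1 f)) / (deg n : ℚ)⟩
  have F_0 : ∀ f, F f 0 = 1 := fun f => by simp [F]
  have F_ne : ∀ f m, m ≠ 0 → F f m = f m + (dat m - Psi degZ m (fix1 f)) / (deg m : ℚ) :=
    fun f m hm => by simp [F, hm]
  obtain ⟨g, hg, -⟩ := exists_fixed F (by
    intro N f f' h m hm
    rw [sub_co]
    by_cases h0 : m = 0
    · subst h0; rw [F_0, F_0, sub_self]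
    · rw [F_ne _ _ h0, F_ne _ _ h0]
      have hv : Van (deg m) (fix1 f - fix1 f') := by
        intro x hx
        rw [sub_co]
        by_cases hx0 : x = 0
        · subst hx0; rw [fix1_0, fix1_0, sub_self]
        · rw [fix1_ne _ _ hx0, fix1_ne _ _ hx0, ← sub_co]
          exact h x (by omega)
      have := Psi_lead hω degZ (fix1_0 f) (fix1_0 f') hv
      rw [fix1_ne _ _ h0, fix1_ne _ _ h0, degZ_apply] at this
      have hd : (deg m : ℚ) ≠ 0 := by exact_mod_cast (deg_pos h0).ne'
      field_simp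
      push_cast at this
      linarith) (fun _ => True) (fun f _ m h => absurd trivial h)
  have g0 : g 0 = 1 := by rw [← hg, F_0]
  have hfix : fix1 g = g := by
    ext m
    by_cases h0 : m = 0
    · subst h0; rw [fix1_0, g0]
    · rw [fix1_ne _ _ h0]
  refine ⟨g, g0, fun n hn => ?_⟩
  have := F_ne g n hn
  rw [hg, hfix] at this
  have hd : (deg n : ℚ) ≠ 0 := by exact_mod_cast (deg_pos hn).ne'
  have h2 : (dat n - Psi degZ n g) / (deg n : ℚ) = 0 := by linarith
  rw [div_eq_zero_iff] at h2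
  rcases h2 with h2 | h2
  · linarith
  · exact absurd h2 hd

theorem Psi_unique (hω : Skew ω) {g h : A ω} (hg : g 0 = 1) (hh : h 0 = 1)
    (e : ∀ n, n ≠ 0 → Psi degZ n g = Psi degZ n h) : g = h := by
  rw [← sub_eq_zero]
  refine eq_zero_of_van fun N => ?_
  induction N with
  | zero => exact Van.zero _
  | succ N ih =>
    rw [van_succ_iff]
    refine ⟨ih, fun m hm => ?_⟩
    rw [sub_co]
    by_cases h0 : m = 0
    · subst h0; rw [hg, hh, sub_self]
    · have hv : Van (deg m) (g - h) := by rw [hm]; exact ih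
      have := Psi_lead hω degZ hg hh hv
      rw [e m h0, sub_self, degZ_apply] at this
      have hd : ((deg m : ℤ) : ℚ) ≠ 0 := by exact_mod_cast (deg_pos h0).ne'
      rcases mul_eq_zero.1 this.symm with h' | h'
      · exact absurd h' hd
      · exact h'

end A

end Pool.Agent.H82.SC
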