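import Pool.Agent.H82.SC.Flip

/-!
# Weights for which the zero part of the distinguished element is trivial
-/

set_option autoImplicit false
set_option linter.unusedSectionVars false

namespace Pool.Agent.H82.SC

open Finset A

variable {V : Type*} [Fintype V] [DecidableEq V]

/-- the weight attached to an integer vector -/
def wt (r : V → ℤ) : (V → ℕ) →+ ℤ where
  toFun m := ∑ i, (m i : ℤ) * r i
  map_zero' := by simp
  map_add' a b := by simp [add_mul, Finset.sum_add_distrib]

theorem wt_apply (r : V → ℤ) (m : V → ℕ) : wt r m = ∑ i, (m i : ℤ) * r i := rfl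

theorem wt_single (r : V → ℤ) (k : V) : wt r (Pi.single k 1) = r k := by
  rw [wt_apply, Finset.sum_eq_single k]
  · simp
  · intro l _ hl; simp [Pi.single_eq_of_ne hl]
  · intro h; exact absurd (Finset.mem_univ k) h

theorem wt_neg (r : V → ℤ) : wt (-r) = - wt r := by
  refine DFunLike.ext _ _ fun m => ?_
  rw [AddMonoidHom.neg_apply, wt_apply, wt_apply, ← Finset.sum_neg_distrib]
  refine Finset.sum_congr rfl fun i _ => ?_
  rw [Pi.neg_apply]; ring

/-- the piecewise linear mutation of weights -/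
def tm (ω : V → V → ℤ) (k : V) (r : V → ℤ) : V → ℤ := fun i =>
  if i = k then - r k else
    r i + max (ω k i) 0 * max (r k) 0 - max (- ω k i) 0 * max (- r k) 0

theorem tm_tp {ω : V → V → ℤ} (hω : Skew ω) (k : V) (r : V → ℤ) :
    tm (tp ω) k (-r) = - tm ω k r := by
  funext i
  have h : tp ω k i = - ω k i := hω i k
  simp only [tm, Pi.neg_apply, h, neg_neg]
  by_cases hi : i = k
  · simp [hi]
  · simp only [hi, if_false]
    ring

theorem wt_tm {ω : V → V → ℤ} (hω : Skew ω) {k : V} {r : V → ℤ} (hr : 0 < r k) (m : V → ℕ)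
    (hm : SS ω k m) : wt (tm ω k r) m = wt r (flv ω k m) := by
  have h1 : ∀ i, (m i : ℤ) * tm ω k r i = (m i : ℤ) * r i + ((m i * (ω k i).toNat : ℕ) : ℤ) * r k
      - if i = k then 2 * (m k : ℤ) * r k else 0 := by
    intro i
    by_cases hi : i = k
    · subst hi
      simp only [tm, if_true, hω.diag, Int.toNat_zero]
      push_cast
      ring
    · simp only [tm, hi, if_false]
      rw [max_eq_left hr.le, max_eq_right (a := - r k) (by omega)]
      push_cast
      rw [Int.toNat_eq_max]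
      ring
  rw [wt_apply, Finset.sum_congr rfl fun i _ => h1 i, Finset.sum_sub_distrib,
    Finset.sum_add_distrib, Finset.sum_ite_eq' Finset.univ k, if_pos (Finset.mem_univ k),
    ← Finset.sum_mul, ← Nat.cast_sum, ← be_apply]
  have h2 : ∀ i, ((flv ω k m i : ℕ) : ℤ) * r i = (m i : ℤ) * r i +
      if i = k then ((be ω k m : ℤ) - 2 * m k) * r k else 0 := by
    intro i
    rw [flv_cast hm]
    by_cases hi : i = k
    · subst hi; simp only [if_true]; ring
    · simp only [hi, if_false]; ring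
  rw [wt_apply, Finset.sum_congr rfl fun i _ => h2 i, Finset.sum_add_distrib,
    Finset.sum_ite_eq' Finset.univ k, if_pos (Finset.mem_univ k)]
  ring

/-- regular weights -/
def Reg (ω : V → V → ℤ) (r : V → ℤ) : Prop := pr (wt r) (gB ω) = 1

theorem Reg_tp {ω : V → V → ℤ} (hω : Skew ω) (r : V → ℤ) : Reg (tp ω) (-r) ↔ Reg ω r := by
  unfold Reg
  rw [wt_neg, ← op_gB hω, op_pr _ (gB_zero hω)]
  constructor
  · intro h; exact op_inj h
  · intro h; rw [h, op_one]

theorem Reg_of_pos {ω : V → V → ℤ} (hω : Skew ω) {r : V → ℤ} (hr : ∀ i, 0 < r i) :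
    Reg ω r := by
  refine pr_of_Gp ⟨gB_zero hω, fun m hm => ?_⟩
  exfalso
  apply hm
  by_cases h : m = 0
  · exact Or.inl h
  · right
    obtain ⟨i, hi⟩ : ∃ i, m i ≠ 0 := by
      by_contra hcon
      push Not at hcon
      exact h (funext hcon)
    rw [wt_apply]
    refine Finset.sum_pos' (fun j _ => mul_nonneg (Nat.cast_nonneg _) (hr j).le)
      ⟨i, Finset.mem_univ i, mul_pos (by exact_mod_cast Nat.pos_of_ne_zero hi) (hr i)⟩

theorem deg_single (k : V) (a : ℕ) : deg (Pi.single k a : V → ℕ) = a := by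
  change ∑ i, (Pi.single k a : V → ℕ) i = a
  rw [Finset.sum_eq_single k]
  · simp
  · intro l _ hl; rw [Pi.single_eq_of_ne hl]
  · intro h; exact absurd (Finset.mem_univ k) h

theorem gB_single {ω : V → V → ℤ} (hω : Skew ω) (k : V) :
    gB ω (Pi.single k 1) = -2 / 3 := by
  have hn0 : (Pi.single k 1 : V → ℕ) ≠ 0 := by
    intro h
    have := congrFun h k
    simp at this
  have v : ∀ f : A ω, f 0 = 1 → Van (deg (Pi.single k 1 : V → ℕ)) (f - 1) := by
    intro f hf
    rw [deg_single, van_one_iff, sub_co, hf, one_co_zero, sub_self]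
  have h1 := Psi_lead hω degZ (n := Pi.single k 1) (gB_zero hω) one_co_zero
    (v _ (gB_zero hω))
  have h2 := ld_lead (ω := ω) degZ (E_zero k) one_co_zero (v _ (E_zero k)) (Pi.single k 1) rfl
  have h3 : Psi degZ (Pi.single k 1) (1 : A ω) = 0 := by
    rw [Psi, pr_of_G0 G0.one, ld_one]; rfl
  rw [gB_Psi hω hn0, dat_single hω hn0 (by rw [Pi.single_eq_same]), h3] at h1
  rw [ld_one] at h2
  have h4 : (degZ (Pi.single k 1 : V → ℕ) : ℤ) = 1 := by
    rw [degZ_apply, deg_single]; rfl
  rw [h4, E_single, al_one] at h2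
  rw [h4] at h1
  have h5 : (0 : A ω) (Pi.single k 1) = 0 := rfl
  rw [h5] at h2
  rw [one_co, if_neg hn0] at h1 h2
  push_cast at h1 h2
  linarith

theorem Reg.ne {ω : V → V → ℤ} (hω : Skew ω) {r : V → ℤ} (h : Reg ω r) (k : V) : r k ≠ 0 := by
  intro hr
  have hn0 : (Pi.single k 1 : V → ℕ) ≠ 0 := by
    intro h
    have := congrFun h k
    simp at this
  have v : Van 1 (gB ω - 1) := by
    rw [van_one_iff, sub_co, gB_zero hω, one_co_zero, sub_self]
  have := (pr_lead (w := wt r) (gB_zero hω) one_co_zero v).2 (Pi.single k 1) (deg_single k 1)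
    (by rw [wt_single, hr])
  rw [h, pr_of_G0 G0.one, sub_self, sub_co, gB_single hω, one_co, if_neg hn0] at this
  have h5 : (0 : A ω) (Pi.single k 1) = 0 := rfl
  rw [h5] at this
  norm_num at this

theorem Reg.mu_pos {ω ω' : V → V → ℤ} (hω : Skew ω) {k : V} (h : ω' = mu k ω) {r : V → ℤ}
    (hr : 0 < r k) (hR : Reg ω r) : Reg ω' (tm ω k r) := by
  have hS : Sp (SS ω k) (hh ω k) := hh_Sp hω k
  have h1 : pr (wt r) (hh ω k) = 1 := by
    rw [← pr_Gp_mul (w := wt r) (u := E k) (E_Gp (by rw [wt_single]; exact hr)) (hh_zero hω k),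
      E_mul_hh]
    exact hR
  have h2 : pr (wt (tm ω k r)) ((flip hω k h).tr (hh ω k)) = 1 := by
    rw [(flip hω k h).tr_pr (w := wt r) (fun m hm => wt_tm hω hr m hm) hS (hh_zero hω k), h1,
      Tw.tr_one]
  unfold Reg
  rw [← gB_mu hω k h, pr_mul_Gm (E_Gm _) (by rw [Tw.tr_zero_co, hh_zero hω]), h2]
  rw [wt_single, tm, if_pos rfl]
  omega

theorem Reg.mu {ω : V → V → ℤ} (hω : Skew ω) (k : V) {r : V → ℤ} (hR : Reg ω r) :
    Reg (SC.mu k ω) (tm ω k r) := by
  rcases lt_or_gt_of_ne (hR.ne hω k) with h | h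
  · have h1 : Reg (tp ω) (-r) := (Reg_tp hω r).2 hR
    have h2 := Reg.mu_pos hω.tp (ω' := tp (SC.mu k ω)) (k := k) (by rw [tp_mu]) (r := -r)
      (by rw [Pi.neg_apply]; omega) h1
    rw [tm_tp hω] at h2
    exact (Reg_tp (hω.mu k) _).1 h2
  · exact Reg.mu_pos hω rfl h hR

end Pool.Agent.H82.SC
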