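import Mathlib

/-!
# Completed quantum torus algebras

For an integer matrix `ω` on a finite set `V`, the algebra `A ω` consists of all formal series
`∑ f n * x ^ n`, `n : V → ℕ`, with rational coefficients and multiplication
`x ^ a * x ^ b = 2 ^ (form ω a b) * x ^ (a + b)`.
-/

set_option autoImplicit false
set_option linter.unusedSectionVars false

namespace Pool.Agent.H82.SC

open Finset

variable {V : Type*} [Fintype V] [DecidableEq V]

/-- the bilinear form with matrix `ω` -/
def form (ω : V → V → ℤ) (a b : V → ℕ) : ℤ := ∑ i, ∑ j, (a i : ℤ) * (b j : ℤ) * ω i j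

omit [DecidableEq V] in
theorem form_add_left (ω : V → V → ℤ) (a b c : V → ℕ) :
    form ω (a + b) c = form ω a c + form ω b c := by
  simp only [form, ← Finset.sum_add_distrib, Pi.add_apply, Nat.cast_add]
  refine Finset.sum_congr rfl fun i _ => Finset.sum_congr rfl fun j _ => ?_
  ring

omit [DecidableEq V] in
theorem form_add_right (ω : V → V → ℤ) (a b c : V → ℕ) :
    form ω a (b + c) = form ω a b + form ω a c := by
  simp only [form, ← Finset.sum_add_distrib, Pi.add_apply, Nat.cast_add]
  refine Finset.sum_congr rfl fun i _ => Finset.sum_congr rfl fun j _ => ?_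
  ring

omit [DecidableEq V] in
@[simp] theorem form_zero_left (ω : V → V → ℤ) (a : V → ℕ) : form ω 0 a = 0 := by
  simp [form]

omit [DecidableEq V] in
@[simp] theorem form_zero_right (ω : V → V → ℤ) (a : V → ℕ) : form ω a 0 = 0 := by
  simp [form]

/-- `ω` is skew-symmetric -/
def Skew (ω : V → V → ℤ) : Prop := ∀ i j, ω i j = - ω j i

omit [DecidableEq V] in
theorem form_swap {ω : V → V → ℤ} (h : Skew ω) (a b : V → ℕ) : form ω a b = - form ω b a := by
  unfold form
  rw [Finset.sum_comm, ← Finset.sum_neg_distrib]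
  refine Finset.sum_congr rfl fun i _ => ?_
  rw [← Finset.sum_neg_distrib]
  refine Finset.sum_congr rfl fun j _ => ?_
  rw [h j i]; ring

omit [DecidableEq V] in
theorem form_self {ω : V → V → ℤ} (h : Skew ω) (a : V → ℕ) : form ω a a = 0 := by
  have := form_swap h a a
  omega

/-- the formal series -/
@[ext] structure A (ω : V → V → ℤ) where
  /-- the coefficients -/
  co : (V → ℕ) → ℚ

namespace A

variable {ω : V → V → ℤ}

instance : CoeFun (A ω) (fun _ => (V → ℕ) → ℚ) := ⟨A.co⟩

instance : Zero (A ω) := ⟨⟨fun _ => 0⟩⟩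
instance : One (A ω) := ⟨⟨fun n => if n = 0 then 1 else 0⟩⟩
instance : Add (A ω) := ⟨fun f g => ⟨fun n => f n + g n⟩⟩
instance : Neg (A ω) := ⟨fun f => ⟨fun n => - f n⟩⟩
instance : Sub (A ω) := ⟨fun f g => ⟨fun n => f n - g n⟩⟩
instance : Mul (A ω) :=
  ⟨fun f g => ⟨fun n => ∑ a ∈ Finset.Iic n, (2 : ℚ) ^ (form ω a (n - a)) * (f a * g (n - a))⟩⟩

@[simp] theorem zero_co (n : V → ℕ) : (0 : A ω) n = 0 := rfl
theorem one_co (n : V → ℕ) : (1 : A ω) n = if n = 0 then 1 else 0 := rfl
@[simp] theorem add_co (f g : A ω) (n : V → ℕ) : (f + g) n = f n + g n := rfl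
@[simp] theorem neg_co (f : A ω) (n : V → ℕ) : (-f) n = - f n := rfl
@[simp] theorem sub_co (f g : A ω) (n : V → ℕ) : (f - g) n = f n - g n := rfl
theorem mul_co (f g : A ω) (n : V → ℕ) :
    (f * g) n = ∑ a ∈ Finset.Iic n, (2 : ℚ) ^ (form ω a (n - a)) * (f a * g (n - a)) := rfl

@[simp] theorem one_co_zero : (1 : A ω) 0 = 1 := by simp [one_co]

protected theorem mul_assoc (f g h : A ω) : f * g * h = f * (g * h) := by
  ext n
  have e1 : (f * g * h) n = ∑ a ∈ Finset.Iic n, ∑ b ∈ Finset.Iic a,
      (2 : ℚ) ^ (form ω a (n - a)) * (2 : ℚ) ^ (form ω b (a - b)) *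
        (f b * g (a - b) * h (n - a)) := by
    rw [mul_co]
    refine Finset.sum_congr rfl fun a _ => ?_
    rw [mul_co, Finset.sum_mul, Finset.mul_sum]
    refine Finset.sum_congr rfl fun b _ => ?_
    ring
  have e2 : (f * (g * h)) n = ∑ b ∈ Finset.Iic n, ∑ c ∈ Finset.Iic (n - b),
      (2 : ℚ) ^ (form ω b (n - b)) * (2 : ℚ) ^ (form ω c (n - b - c)) *
        (f b * g c * h (n - b - c)) := by
    rw [mul_co]
    refine Finset.sum_congr rfl fun a _ => ?_
    rw [mul_co, Finset.mul_sum, Finset.mul_sum]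
    refine Finset.sum_congr rfl fun b _ => ?_
    ring
  rw [e1, e2, Finset.sum_sigma', Finset.sum_sigma']
  refine Finset.sum_nbij' (fun x => ⟨x.2, x.1 - x.2⟩) (fun x => ⟨x.1 + x.2, x.1⟩) ?_ ?_ ?_ ?_ ?_
  · rintro ⟨a, b⟩ hx
    simp only [Finset.mem_sigma, Finset.mem_Iic] at hx ⊢
    exact ⟨hx.2.trans hx.1, tsub_le_tsub_right hx.1 b⟩
  · rintro ⟨b, c⟩ hx
    simp only [Finset.mem_sigma, Finset.mem_Iic] at hx ⊢
    refine ⟨?_, le_self_add⟩
    have := add_le_add_right hx.2 b
    rw [add_tsub_cancel_of_le hx.1] at this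
    exact this
  · rintro ⟨a, b⟩ hx
    simp only [Finset.mem_sigma, Finset.mem_Iic] at hx
    simp only [Sigma.mk.injEq, heq_eq_eq, and_true]
    exact add_tsub_cancel_of_le hx.2
  · rintro ⟨b, c⟩ hx
    simp
  · rintro ⟨a, b⟩ hx
    simp only [Finset.mem_sigma, Finset.mem_Iic] at hx
    obtain ⟨c, rfl⟩ := exists_add_of_le hx.2
    obtain ⟨d, rfl⟩ := exists_add_of_le hx.1
    have h1 : b + c + d - (b + c) = d := by simp
    have h2 : b + c - b = c := by simp
    have h3 : b + c + d - b = c + d := by rw [add_assoc]; simp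
    have h4 : c + d - c = d := by simp
    simp only [h1, h2, h3, h4]
    rw [← zpow_add₀ (by norm_num : (2 : ℚ) ≠ 0), ← zpow_add₀ (by norm_num : (2 : ℚ) ≠ 0)]
    congr 2
    rw [form_add_left, form_add_right]
    ring

protected theorem one_mul (f : A ω) : 1 * f = f := by
  ext n
  rw [mul_co, Finset.sum_eq_single 0]
  · simp
  · intro b _ hb
    simp [one_co, hb]
  · intro h
    exact absurd (Finset.mem_Iic.2 (fun i => Nat.zero_le _)) h

protected theorem mul_one (f : A ω) : f * 1 = f := by
  ext n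
  rw [mul_co, Finset.sum_eq_single n]
  · simp
  · intro b hb hbn
    have : n - b ≠ 0 := by
      intro h
      rw [tsub_eq_zero_iff_le] at h
      exact hbn (le_antisymm (Finset.mem_Iic.1 hb) h)
    simp [one_co, this]
  · intro h
    exact absurd (Finset.mem_Iic.2 le_rfl) h

instance : Ring (A ω) where
  add_assoc f g h := by ext n; simp [add_assoc]
  zero_add f := by ext n; simp
  add_zero f := by ext n; simp
  add_comm f g := by ext n; simp [add_comm]
  neg_add_cancel f := by ext n; simp
  sub_eq_add_neg f g := by ext n; simp [sub_eq_add_neg]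
  nsmul := nsmulRec
  zsmul := zsmulRec
  mul_assoc := A.mul_assoc
  one_mul := A.one_mul
  mul_one := A.mul_one
  zero_mul f := by ext n; simp [mul_co]
  mul_zero f := by ext n; simp [mul_co]
  left_distrib f g h := by
    ext n
    rw [add_co, mul_co, mul_co, mul_co, ← Finset.sum_add_distrib]
    refine Finset.sum_congr rfl fun a _ => ?_
    rw [add_co]; ring
  right_distrib f g h := by
    ext n
    rw [add_co, mul_co, mul_co, mul_co, ← Finset.sum_add_distrib]
    refine Finset.sum_congr rfl fun a _ => ?_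
    rw [add_co]; ring

@[simp] theorem mul_co_zero (f g : A ω) : (f * g) 0 = f 0 * g 0 := by
  rw [mul_co]
  have : Finset.Iic (0 : V → ℕ) = {0} := by
    ext x
    simp [Finset.mem_Iic]
  rw [this]
  simp

/-- a product vanishes at `n` if in every splitting `n = a + b` one of the factors vanishes -/
theorem mul_co_eq_zero {f g : A ω} {n : V → ℕ}
    (h : ∀ a b, a + b = n → f a = 0 ∨ g b = 0) : (f * g) n = 0 := by
  rw [mul_co]
  refine Finset.sum_eq_zero fun a ha => ?_
  rcases h a (n - a) (add_tsub_cancel_of_le (Finset.mem_Iic.1 ha)) with h | h <;> simp [h]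

/-- products at `n` only depend on the coefficients that occur in splittings of `n` -/
theorem mul_co_congr {f g f' g' : A ω} {n : V → ℕ}
    (h : ∀ a b, a + b = n → f a * g b = f' a * g' b) : (f * g) n = (f' * g') n := by
  rw [mul_co, mul_co]
  refine Finset.sum_congr rfl fun a ha => ?_
  rw [h a (n - a) (add_tsub_cancel_of_le (Finset.mem_Iic.1 ha))]

end A

end Pool.Agent.H82.SC
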