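import Pool.Agent.H82.SC.Psi

/-!
# Transport along a partially defined linear involution, and the mirror map
-/

set_option autoImplicit false
set_option linter.unusedSectionVars false

namespace Pool.Agent.H82.SC

open Finset

variable {V : Type*} [Fintype V] [DecidableEq V]

/-- a form preserving additive involution of a submonoid -/
structure Tw (ω ω' : V → V → ℤ) where
  /-- the submonoid -/
  S : (V → ℕ) → Prop
  /-- the involution -/
  fl : (V → ℕ) → (V → ℕ)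
  S_zero : S 0
  S_add : ∀ a b, S a → S b → S (a + b)
  fl_mem : ∀ a, S a → S (fl a)
  fl_fl : ∀ a, S a → fl (fl a) = a
  fl_add : ∀ a b, S a → S b → fl (a + b) = fl a + fl b
  form_fl : ∀ a b, S a → S b → form ω' a b = form ω (fl a) (fl b)

namespace Tw

variable {ω ω' : V → V → ℤ} (T : Tw ω ω')

theorem fl_zero : T.fl 0 = 0 := by
  have := T.fl_add 0 0 T.S_zero T.S_zero
  rw [add_zero] at this
  exact left_eq_add.1 this

theorem fl_ne_zero {a : V → ℕ} (ha : T.S a) (h : a ≠ 0) : T.fl a ≠ 0 := by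
  intro h'
  apply h
  rw [← T.fl_fl a ha, h', T.fl_zero]

open Classical in
/-- transported series -/
noncomputable def tr (f : A ω) : A ω' := ⟨fun m => if T.S m then f (T.fl m) else 0⟩

theorem tr_pos (f : A ω) {m : V → ℕ} (h : T.S m) : T.tr f m = f (T.fl m) := by
  simp [tr, h]
theorem tr_neg (f : A ω) {m : V → ℕ} (h : ¬ T.S m) : T.tr f m = 0 := by
  simp [tr, h]

theorem tr_zero_co (f : A ω) : T.tr f 0 = f 0 := by
  rw [T.tr_pos f T.S_zero, T.fl_zero]

theorem Sp_tr (f : A ω) : A.Sp T.S (T.tr f) := fun _ h => T.tr_neg f h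

theorem tr_one : T.tr (1 : A ω) = 1 := by
  ext m
  rw [A.one_co]
  by_cases h : T.S m
  · rw [T.tr_pos _ h, A.one_co]
    by_cases h0 : m = 0
    · subst h0; simp [T.fl_zero]
    · rw [if_neg h0, if_neg (T.fl_ne_zero h h0)]
  · rw [T.tr_neg _ h, if_neg]
    rintro rfl
    exact h T.S_zero

theorem tr_mul {f g : A ω} (hf : A.Sp T.S f) (hg : A.Sp T.S g) :
    T.tr (f * g) = T.tr f * T.tr g := by
  classical
  ext n
  by_cases h : T.S n
  · rw [T.tr_pos _ h, A.mul_co, A.mul_co]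
    -- restrict both sums to splittings inside `S`
    have e1 : ∑ a ∈ Finset.Iic (T.fl n), (2 : ℚ) ^ (form ω a (T.fl n - a)) *
          (f a * g (T.fl n - a)) =
        ∑ a ∈ (Finset.Iic (T.fl n)).filter (fun a => T.S a ∧ T.S (T.fl n - a)),
          (2 : ℚ) ^ (form ω a (T.fl n - a)) * (f a * g (T.fl n - a)) := by
      rw [Finset.sum_filter]
      refine Finset.sum_congr rfl fun a ha => ?_
      by_cases h1 : T.S a
      · by_cases h2 : T.S (T.fl n - a)
        · simp [h1, h2]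
        · rw [hg _ h2]; simp
      · rw [hf _ h1]; simp
    have e2 : ∑ a ∈ Finset.Iic n, (2 : ℚ) ^ (form ω' a (n - a)) *
          (T.tr f a * T.tr g (n - a)) =
        ∑ a ∈ (Finset.Iic n).filter (fun a => T.S a ∧ T.S (n - a)),
          (2 : ℚ) ^ (form ω' a (n - a)) * (T.tr f a * T.tr g (n - a)) := by
      rw [Finset.sum_filter]
      refine Finset.sum_congr rfl fun a ha => ?_
      by_cases h1 : T.S a
      · by_cases h2 : T.S (n - a)
        · simp [h1, h2]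
        · rw [T.tr_neg g h2]; simp
      · rw [T.tr_neg f h1]; simp
    rw [e1, e2]
    have main : ∀ n a, T.S n → a ∈ (Finset.Iic n).filter (fun a => T.S a ∧ T.S (n - a)) →
        T.fl n - T.fl a = T.fl (n - a) ∧
        T.fl a ∈ (Finset.Iic (T.fl n)).filter (fun a => T.S a ∧ T.S (T.fl n - a)) := by
      intro n a hn ha
      rw [Finset.mem_filter, Finset.mem_Iic] at ha
      obtain ⟨h1, h2, h3⟩ := ha
      obtain ⟨b, rfl⟩ := exists_add_of_le h1
      rw [add_tsub_cancel_left] at h3 ⊢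
      rw [T.fl_add a b h2 h3, add_tsub_cancel_left]
      refine ⟨rfl, ?_⟩
      rw [Finset.mem_filter, Finset.mem_Iic, add_tsub_cancel_left]
      exact ⟨le_self_add, T.fl_mem a h2, T.fl_mem b h3⟩
    refine Finset.sum_nbij' T.fl T.fl ?_ ?_ ?_ ?_ ?_
    · intro a ha
      have := (main _ a (T.fl_mem n h) ha).2
      rwa [T.fl_fl n h] at this
    · intro a ha
      exact (main _ a h ha).2
    · intro a ha
      rw [Finset.mem_filter] at ha
      exact T.fl_fl a ha.2.1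
    · intro a ha
      rw [Finset.mem_filter] at ha
      exact T.fl_fl a ha.2.1
    · intro a ha
      have h1 := (main _ a (T.fl_mem n h) ha).1
      rw [T.fl_fl n h] at h1
      rw [Finset.mem_filter, Finset.mem_Iic] at ha
      obtain ⟨-, h2, h3⟩ := ha
      rw [h1, T.tr_pos f (T.fl_mem a h2), T.fl_fl a h2, T.tr_pos g (T.fl_mem _ h3),
        T.fl_fl _ h3, T.form_fl _ _ (T.fl_mem a h2) (T.fl_mem _ h3), T.fl_fl a h2, T.fl_fl _ h3]
  · rw [T.tr_neg _ h]
    symm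
    exact ((T.Sp_tr f).mul (T.Sp_tr g) T.S_add) n h

theorem tr_inv {f : A ω} (hf : A.Sp T.S f) (h0 : f 0 = 1) : T.tr (A.inv f) = A.inv (T.tr f) := by
  refine A.inv_unique (by rw [T.tr_zero_co, h0]) ?_
  rw [← T.tr_mul hf (hf.inv h0 T.S_zero T.S_add), A.mul_inv h0, T.tr_one]

theorem tr_D {l l' : (V → ℕ) →+ ℤ} (hl : ∀ m, T.S m → l' m = l (T.fl m)) (f : A ω) :
    T.tr (A.D l f) = A.D l' (T.tr f) := by
  ext m
  by_cases h : T.S m
  · rw [T.tr_pos _ h, A.D_co, A.D_co, T.tr_pos _ h, hl m h]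
  · rw [T.tr_neg _ h, A.D_co, T.tr_neg _ h, mul_zero]

theorem tr_Gp {w w' : (V → ℕ) →+ ℤ} (hw : ∀ m, T.S m → w' m = w (T.fl m)) {f : A ω}
    (hf : A.Gp w f) : A.Gp w' (T.tr f) := by
  refine ⟨by rw [T.tr_zero_co, hf.1], fun m hm => ?_⟩
  by_cases h : T.S m
  · rw [T.tr_pos _ h]
    refine hf.2 _ ?_
    rintro (h' | h')
    · exact hm (Or.inl (by rw [← T.fl_fl m h, h', T.fl_zero]))
    · exact hm (Or.inr (by rw [hw m h]; exact h'))
  · exact T.tr_neg f h
theorem tr_Gm {w w' : (V → ℕ) →+ ℤ} (hw : ∀ m, T.S m → w' m = w (T.fl m)) {f : A ω}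
    (hf : A.Gm w f) : A.Gm w' (T.tr f) := by
  refine ⟨by rw [T.tr_zero_co, hf.1], fun m hm => ?_⟩
  by_cases h : T.S m
  · rw [T.tr_pos _ h]
    refine hf.2 _ ?_
    rintro (h' | h')
    · exact hm (Or.inl (by rw [← T.fl_fl m h, h', T.fl_zero]))
    · exact hm (Or.inr (by rw [hw m h]; exact h'))
  · exact T.tr_neg f h
theorem tr_G0 {w w' : (V → ℕ) →+ ℤ} (hw : ∀ m, T.S m → w' m = w (T.fl m)) {f : A ω}
    (hf : A.G0 w f) : A.G0 w' (T.tr f) := by
  refine ⟨by rw [T.tr_zero_co, hf.1], fun m hm => ?_⟩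
  by_cases h : T.S m
  · rw [T.tr_pos _ h]
    refine hf.2 _ ?_
    show ¬ w (T.fl m) = 0
    rw [← hw m h]; exact hm
  · exact T.tr_neg f h

theorem tr_pr {w w' : (V → ℕ) →+ ℤ} (hw : ∀ m, T.S m → w' m = w (T.fl m)) {f : A ω}
    (hf : A.Sp T.S f) (h0 : f 0 = 1) : A.pr w' (T.tr f) = T.tr (A.pr w f) := by
  obtain ⟨a, b, c, ha, hb, hc, e, sa, sb, sc⟩ := A.exists_fac w h0 T.S T.S_zero T.S_add hf
  have e2 : A.pr w f = b := by rw [e]; exact A.pr_eq ha hb hc
  rw [e2, e, T.tr_mul (sa.mul sb T.S_add) sc, T.tr_mul sa sb]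
  exact A.pr_eq (T.tr_Gp hw ha) (T.tr_G0 hw hb) (T.tr_Gm hw hc)

theorem tr_inj {f g : A ω} (hf : A.Sp T.S f) (hg : A.Sp T.S g) (h : T.tr f = T.tr g) :
    f = g := by
  ext m
  by_cases hm : T.S m
  · have : T.tr f (T.fl m) = T.tr g (T.fl m) := by rw [h]
    rwa [T.tr_pos _ (T.fl_mem m hm), T.tr_pos _ (T.fl_mem m hm), T.fl_fl m hm] at this
  · rw [hf m hm, hg m hm]

theorem tr_eq_one_iff {f : A ω} (hf : A.Sp T.S f) : T.tr f = 1 ↔ f = 1 := by
  constructor
  · intro h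
    exact T.tr_inj hf (A.Sp.one T.S_zero) (by rw [h, T.tr_one])
  · rintro rfl
    exact T.tr_one

theorem tr_Psi {l l' : (V → ℕ) →+ ℤ} (hl : ∀ m, T.S m → l' m = l (T.fl m)) {f : A ω}
    (hf : A.Sp T.S f) (h0 : f 0 = 1) {n : V → ℕ} (hn : T.S n) :
    A.Psi l' n (T.tr f) = A.Psi l (T.fl n) f := by
  have hw : ∀ m, T.S m → fw ω' n m = fw ω (T.fl n) (T.fl m) := by
    intro m hm
    rw [fw_apply, fw_apply, T.form_fl n m hn hm]
  have hb := (A.pr_G0 (fw ω (T.fl n)) h0).1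
  have sb := hf.pr (fw ω (T.fl n)) h0 T.S_zero T.S_add
  rw [A.Psi, A.Psi, T.tr_pr hw hf h0, A.ld, A.ld, ← T.tr_D hl, ← T.tr_inv sb hb,
    ← T.tr_mul (sb.inv hb T.S_zero T.S_add) (sb.D l), T.tr_pos _ hn]

end Tw

/-! ### the mirror map -/

/-- the transposed matrix -/
def tp (ω : V → V → ℤ) : V → V → ℤ := fun i j => ω j i

@[simp] theorem tp_tp (ω : V → V → ℤ) : tp (tp ω) = ω := rfl

theorem Skew.tp {ω : V → V → ℤ} (h : Skew ω) : Skew (SC.tp ω) := fun i j => h j i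

theorem form_tp (ω : V → V → ℤ) (a b : V → ℕ) : form (tp ω) a b = form ω b a := by
  unfold form tp
  rw [Finset.sum_comm]
  refine Finset.sum_congr rfl fun i _ => Finset.sum_congr rfl fun j _ => ?_
  ring

theorem fw_tp {ω : V → V → ℤ} (h : Skew ω) (n : V → ℕ) : fw (tp ω) n = - fw ω n := by
  refine DFunLike.ext _ _ fun m => ?_
  rw [AddMonoidHom.neg_apply, fw_apply, fw_apply, form_tp, form_swap h]

namespace A

variable {ω : V → V → ℤ}

/-- the mirror map -/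
def op (f : A ω) : A (tp ω) := ⟨f.co⟩

@[simp] theorem op_co (f : A ω) (n : V → ℕ) : op f n = f n := rfl
theorem op_op (f : A ω) : op (op f) = f := rfl
theorem op_one : op (1 : A ω) = 1 := rfl
theorem op_D (l : (V → ℕ) →+ ℤ) (f : A ω) : op (D l f) = D l (op f) := rfl
theorem op_mul (f g : A ω) : op (f * g) = op g * op f := by
  ext n
  rw [op_co, mul_co, mul_co]
  refine Finset.sum_nbij' (fun a => n - a) (fun a => n - a) ?_ ?_ ?_ ?_ ?_
  · intro a _; exact Finset.mem_Iic.2 tsub_le_self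
  · intro a _; exact Finset.mem_Iic.2 tsub_le_self
  · intro a ha; exact tsub_tsub_cancel_of_le (Finset.mem_Iic.1 ha)
  · intro a ha; exact tsub_tsub_cancel_of_le (Finset.mem_Iic.1 ha)
  · intro a ha
    rw [tsub_tsub_cancel_of_le (Finset.mem_Iic.1 ha), form_tp, op_co, op_co, mul_comm (f a)]
theorem op_inj {f g : A ω} (h : op f = op g) : f = g := by
  ext m
  exact congrArg (fun x : A (tp ω) => x m) h
theorem op_inv {f : A ω} (h0 : f 0 = 1) : op (inv f) = inv (op f) := by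
  refine inv_unique' h0 ?_
  rw [← op_mul, mul_inv h0, op_one]
theorem Sp.op {P : (V → ℕ) → Prop} {f : A ω} (hf : Sp P f) : Sp P (op f) := hf

theorem op_Gp {w : (V → ℕ) →+ ℤ} {f : A ω} (hf : Gp w f) : Gm (-w) (op f) := by
  refine ⟨hf.1, hf.2.op.mono ?_⟩
  rintro m (h | h)
  · exact Or.inl h
  · right; rw [AddMonoidHom.neg_apply]; omega
theorem op_Gm {w : (V → ℕ) →+ ℤ} {f : A ω} (hf : Gm w f) : Gp (-w) (op f) := by
  refine ⟨hf.1, hf.2.op.mono ?_⟩
  rintro m (h | h)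
  · exact Or.inl h
  · right; rw [AddMonoidHom.neg_apply]; omega
theorem op_G0 {w : (V → ℕ) →+ ℤ} {f : A ω} (hf : G0 w f) : G0 (-w) (op f) := by
  refine ⟨hf.1, hf.2.op.mono ?_⟩
  intro m h
  rw [AddMonoidHom.neg_apply]; omega
theorem op_pr (w : (V → ℕ) →+ ℤ) {f : A ω} (h0 : f 0 = 1) : pr (-w) (op f) = op (pr w f) := by
  obtain ⟨a, c, ha, hb, hc, e⟩ := pr_spec w h0
  have : op f = op c * op (pr w f) * op a := by
    nth_rewrite 1 [e]
    rw [op_mul, op_mul, mul_assoc]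
  rw [this]
  exact pr_eq (op_Gm hc) (op_G0 hb) (op_Gp ha)
theorem op_Psi (hω : Skew ω) (l : (V → ℕ) →+ ℤ) (n : V → ℕ) {f : A ω} (h0 : f 0 = 1) :
    Psi l n (op f) = Psi l n f := by
  have hb := pr_G0 (fw ω n) h0
  have cl : ∀ a b : V → ℕ, fw ω n a = 0 → fw ω n b = 0 → fw ω n (a + b) = 0 := by
    intro a b ha hb
    rw [map_add]; omega
  rw [Psi, Psi, fw_tp hω, op_pr _ h0, ld, ld, ← op_D, ← op_inv hb.1, ← op_mul, op_co,
    trace hω (hb.2.D l) hb.inv.2]

end A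

end Pool.Agent.H82.SC
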